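import Mathlib

/-! Analytic first integrals of the outer billiard about an ellipse are constant on the homothetic
ellipses near the ellipse -/

open Set Filter Topology

namespace Pool.Agent.W743.BE

/-- the point of the homothetic ellipse with parameter `r` at angle `φ` -/
noncomputable def ept (u v p q k r φ : ℝ) : ℝ × ℝ :=
  (u + r * (Real.cos φ / p - k * Real.sin φ / q), v + r * (Real.sin φ / q))

lemma ept_cont (u v p q k : ℝ) : Continuous fun z : ℝ × ℝ => ept u v p q k z.1 z.2 := by
  unfold ept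
  fun_prop

/-- a continuous function with the periods `2π` and `2α`, `α / π` irrational, is constant -/
theorem const_of_periods {g : ℝ → ℝ} (hg : Continuous g) {a b : ℝ} (ha : ∀ x, g (x + a) = g x)
    (hb : ∀ x, g (x + b) = g x) (hirr : Irrational (a / b)) (x : ℝ) : g x = g 0 := by
  let S : AddSubgroup ℝ :=
    { carrier := {c | ∀ x, g (x + c) = g x}
      zero_mem' := fun x => by rw [add_zero]
      add_mem' := fun {c d} hc hd x => by rw [← add_assoc, hd, hc]
      neg_mem' := fun {c} hc x => by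
        have := hc (x + -c)
        rw [neg_add_cancel_right] at this
        exact this.symm }
  have hclosed : IsClosed (S : Set ℝ) := by
    have : (S : Set ℝ) = ⋂ x, {c | g (x + c) = g x} := by
      ext c
      simp only [mem_iInter]
      exact Iff.rfl
    rw [this]
    exact isClosed_iInter fun x => isClosed_eq (hg.comp (by fun_prop)) continuous_const
  have hdense : Dense (AddSubgroup.closure {a, b} : Set ℝ) :=
    dense_addSubgroupClosure_pair_iff.2 hirr
  have hle : AddSubgroup.closure {a, b} ≤ S := by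
    rw [AddSubgroup.closure_le]
    intro c hc
    rcases hc with rfl | hc
    · exact ha
    · rw [mem_singleton_iff.1 hc]
      exact hb
  have hS : (S : Set ℝ) = univ := by
    have h1 : Dense (S : Set ℝ) := hdense.mono hle
    rw [← hclosed.closure_eq]
    exact h1.closure_eq
  have : x ∈ (S : Set ℝ) := by rw [hS]; trivial
  have h2 : g (0 + x) = g 0 := this 0
  rwa [zero_add] at h2

/-- Main lemma in coordinates. -/
theorem leaf_coord {K : ℝ → ℝ → ℝ} {U : Set (ℝ × ℝ)} (hU : IsOpen U)
    (hK : AnalyticOnNhd ℝ (Function.uncurry K) U) {u v p q k : ℝ}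
    (hmem : ∀ φ, ept u v p q k 1 φ ∈ U)
    (hinv : ∀ φ : ℝ, ∃ ε > 0, ∀ τ : ℝ, 0 < τ → τ < ε →
      Function.uncurry K (ept u v p q k (Real.sqrt (1 + τ ^ 2)) (φ + Real.arctan τ)) =
      Function.uncurry K (ept u v p q k (Real.sqrt (1 + τ ^ 2)) (φ - Real.arctan τ))) :
    ∃ η > 0, ∀ r : ℝ, 1 ≤ r → r < 1 + η → ∀ φ : ℝ,
      ept u v p q k r φ ∈ U ∧
      Function.uncurry K (ept u v p q k r φ) = Function.uncurry K (ept u v p q k r 0) := by
  -- a uniform neighbourhood
  obtain ⟨η, hη, hηU⟩ : ∃ η > 0, ∀ r : ℝ, |r - 1| < η → ∀ φ : ℝ, ept u v p q k r φ ∈ U := by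
    have hcomp : IsCompact ((fun z : ℝ × ℝ => (z.1, z.2)) '' (({1} : Set ℝ) ×ˢ Icc 0 (2 * Real.pi))) := by
      apply IsCompact.image
      · exact isCompact_singleton.prod isCompact_Icc
      · fun_prop
    have hcomp' : IsCompact (({1} : Set ℝ) ×ˢ Icc 0 (2 * Real.pi)) :=
      isCompact_singleton.prod isCompact_Icc
    have hV : IsOpen ((fun z : ℝ × ℝ => ept u v p q k z.1 z.2) ⁻¹' U) :=
      hU.preimage (ept_cont u v p q k)
    have hsub : (({1} : Set ℝ) ×ˢ Icc 0 (2 * Real.pi)) ⊆
        ((fun z : ℝ × ℝ => ept u v p q k z.1 z.2) ⁻¹' U) := by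
      rintro ⟨r, φ⟩ ⟨hr, -⟩
      have hr' : r = 1 := hr
      subst hr'
      exact hmem φ
    obtain ⟨A, B, hA, hB, h1A, hIB, hAB⟩ := generalized_tube_lemma isCompact_singleton
      (isCompact_Icc (a := (0 : ℝ)) (b := 2 * Real.pi)) hV hsub
    have h1 : (1 : ℝ) ∈ A := h1A rfl
    obtain ⟨η, hη, hb⟩ := Metric.isOpen_iff.1 hA 1 h1
    refine ⟨η, hη, fun r hr φ => ?_⟩
    have hr' : r ∈ A := hb (by rw [Metric.mem_ball, Real.dist_eq]; exact hr)
    -- reduce the angle
    obtain ⟨ψ, hψ, hc, hs⟩ : ∃ ψ ∈ Icc 0 (2 * Real.pi), Real.cos φ = Real.cos ψ ∧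
        Real.sin φ = Real.sin ψ := by
      refine ⟨toIcoMod (show 0 < 2 * Real.pi by positivity) 0 φ, ?_, ?_, ?_⟩
      · have := toIcoMod_mem_Ico (show 0 < 2 * Real.pi by positivity) 0 φ
        rw [zero_add] at this
        exact ⟨this.1, this.2.le⟩
      · have h := toIcoMod_add_toIcoDiv_zsmul (show 0 < 2 * Real.pi by positivity) 0 φ
        conv_lhs => rw [← h]
        rw [zsmul_eq_mul]
        exact Real.cos_add_int_mul_two_pi _ _
      · have h := toIcoMod_add_toIcoDiv_zsmul (show 0 < 2 * Real.pi by positivity) 0 φ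
        conv_lhs => rw [← h]
        rw [zsmul_eq_mul]
        exact Real.sin_add_int_mul_two_pi _ _
    have h2 : (r, ψ) ∈ (fun z : ℝ × ℝ => ept u v p q k z.1 z.2) ⁻¹' U := hAB ⟨hr', hIB hψ⟩
    have h3 : ept u v p q k r ψ ∈ U := h2
    have h4 : ept u v p q k r φ = ept u v p q k r ψ := by unfold ept; rw [hc, hs]
    rw [h4]
    exact h3
  -- the interval of `α`
  let α1 : ℝ := Real.arccos (1 / (1 + η))
  have hq1 : 1 / (1 + η) < 1 := by rw [div_lt_one (by linarith)]; linarith
  have hq0 : 0 < 1 / (1 + η) := by positivity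
  have hα1 : 0 < α1 := Real.arccos_pos.2 hq1
  have hα1' : α1 < Real.pi / 2 := Real.arccos_lt_pi_div_two.2 hq0
  have hcos : ∀ α ∈ Ioo (-α1) α1, 1 / (1 + η) < Real.cos α ∧ 0 < Real.cos α := by
    intro α hα
    have h1 : |α| < α1 := abs_lt.2 hα
    have h2 : Real.cos α1 < Real.cos |α| :=
      Real.cos_lt_cos_of_nonneg_of_le_pi_div_two (abs_nonneg _) hα1'.le h1
    rw [Real.cos_abs] at h2
    have h3 : Real.cos α1 = 1 / (1 + η) := Real.cos_arccos (by linarith) hq1.le
    rw [h3] at h2
    exact ⟨h2, hq0.trans h2⟩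
  have hrad : ∀ α ∈ Ioo (-α1) α1, |1 / Real.cos α - 1| < η := by
    intro α hα
    obtain ⟨h1, h2⟩ := hcos α hα
    have h3 : 1 ≤ 1 / Real.cos α := by rw [le_div_iff₀ h2]; linarith [Real.cos_le_one α]
    rw [abs_of_nonneg (by linarith)]
    have h4 : 1 / Real.cos α < 1 + η := by
      rw [div_lt_iff₀ h2]
      rw [div_lt_iff₀ (by linarith)] at h1
      linarith
    linarith
  let H : ℝ → ℝ → ℝ := fun r φ => Function.uncurry K (ept u v p q k r φ)
  -- invariance for all `α`
  have hinv2 : ∀ φ : ℝ, ∀ α ∈ Ioo (-α1) α1,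
      H (1 / Real.cos α) (φ + α) = H (1 / Real.cos α) (φ - α) := by
    intro φ
    let F : ℝ → ℝ := fun α => H (1 / Real.cos α) (φ + α) - H (1 / Real.cos α) (φ - α)
    have hanH : ∀ s : ℝ, ∀ α ∈ Ioo (-α1) α1,
        AnalyticAt ℝ (fun α => H (1 / Real.cos α) (φ + s * α)) α := by
      intro s α hα
      have hc0 := (hcos α hα).2.ne'
      have e1 : AnalyticAt ℝ (fun α => 1 / Real.cos α) α :=
        analyticAt_const.fun_div Real.analyticAt_cos hc0
      have e0 : AnalyticAt ℝ (fun α : ℝ => φ + s * α) α :=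
        analyticAt_const.fun_add (analyticAt_const.fun_mul analyticAt_id)
      have e2 : AnalyticAt ℝ (fun α => Real.cos (φ + s * α)) α :=
        Real.analyticAt_cos.comp e0
      have e3 : AnalyticAt ℝ (fun α => Real.sin (φ + s * α)) α :=
        Real.analyticAt_sin.comp e0
      have e4 : AnalyticAt ℝ (fun α => ept u v p q k (1 / Real.cos α) (φ + s * α)) α := by
        unfold ept
        simp only [div_eq_mul_inv] at e1 ⊢
        refine AnalyticAt.prod ?_ ?_
        · exact analyticAt_const.fun_add (e1.fun_mul ((e2.fun_mul analyticAt_const).fun_sub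
            ((analyticAt_const.fun_mul e3).fun_mul analyticAt_const)))
        · exact analyticAt_const.fun_add (e1.fun_mul (e3.fun_mul analyticAt_const))
      have e5 : AnalyticAt ℝ (Function.uncurry K)
          (ept u v p q k (1 / Real.cos α) (φ + s * α)) :=
        hK _ (hηU _ (hrad α hα) _)
      exact AnalyticAt.comp (g := Function.uncurry K)
        (f := fun α => ept u v p q k (1 / Real.cos α) (φ + s * α)) e5 e4
    have hF : AnalyticOnNhd ℝ F (Ioo (-α1) α1) := by
      intro α hα
      have h1 := hanH 1 α hα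
      have h2 := hanH (-1) α hα
      have h3 : F = fun α => H (1 / Real.cos α) (φ + 1 * α) - H (1 / Real.cos α) (φ + (-1) * α) := by
        funext α
        simp only [F]
        rw [one_mul, neg_one_mul, sub_eq_add_neg φ α]
      rw [h3]
      exact h1.fun_sub h2
    obtain ⟨ε, hε, hinvφ⟩ := hinv φ
    -- zeros of `F` accumulate at a point
    have hev : ∃ α0 ∈ Ioo (-α1) α1, F =ᶠ[𝓝 α0] 0 := by
      let β : ℝ := min α1 (Real.arctan ε)
      have hβ : 0 < β := lt_min hα1 (Real.arctan_pos.2 hε)
      have hβ1 : β ≤ α1 := min_le_left _ _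
      refine ⟨β / 2, ⟨by linarith, by linarith⟩, ?_⟩
      have hnb : Ioo 0 β ∈ 𝓝 (β / 2) := isOpen_Ioo.mem_nhds ⟨by linarith, by linarith⟩
      filter_upwards [hnb] with α hα
      have hα1'' : α < Real.arctan ε := hα.2.trans_le (min_le_right _ _)
      have hαpi : α < Real.pi / 2 := hα1''.trans (Real.arctan_lt_pi_div_two _)
      have h1 : 0 < Real.tan α := Real.tan_pos_of_pos_of_lt_pi_div_two hα.1 hαpi
      have h2 : Real.tan α < ε := by
        have := Real.tan_lt_tan_of_nonneg_of_lt_pi_div_two hα.1.le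
          (Real.arctan_lt_pi_div_two ε) hα1''
        rwa [Real.tan_arctan] at this
      have h3 := hinvφ (Real.tan α) h1 h2
      have h4 : Real.arctan (Real.tan α) = α :=
        Real.arctan_tan (by linarith [hα.1, Real.pi_pos]) hαpi
      have hc : 0 < Real.cos α := Real.cos_pos_of_mem_Ioo ⟨by linarith [hα.1, Real.pi_pos], hαpi⟩
      have h5 : Real.sqrt (1 + Real.tan α ^ 2) = 1 / Real.cos α := by
        have : 1 + Real.tan α ^ 2 = (1 / Real.cos α) ^ 2 := by
          rw [Real.tan_eq_sin_div_cos]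
          field_simp
          linarith [Real.sin_sq_add_cos_sq α]
        rw [this, Real.sqrt_sq (by positivity)]
      rw [h4, h5] at h3
      simp only [F, H, Pi.zero_apply]
      rw [h3, sub_self]
    obtain ⟨α0, hα0, hev⟩ := hev
    have hz := hF.eqOn_zero_of_preconnected_of_eventuallyEq_zero isPreconnected_Ioo hα0 hev
    intro α hα
    have := hz hα
    simp only [F, Pi.zero_apply] at this
    exact sub_eq_zero.1 this
  have hHc : ∀ r : ℝ, |r - 1| < η → Continuous (H r) := by
    intro r hr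
    have hcont : ContinuousOn (Function.uncurry K) U := hK.continuousOn
    exact hcont.comp_continuous (by unfold ept; fun_prop) (fun φ => hηU r hr φ)
  have hper : ∀ r φ, H r (φ + 2 * Real.pi) = H r φ := by
    intro r φ
    simp only [H, ept, Real.cos_add_two_pi, Real.sin_add_two_pi]
  -- irrational angles
  have hirr : ∀ α ∈ Ioo (-α1) α1, Irrational (α / Real.pi) → ∀ φ,
      H (1 / Real.cos α) φ = H (1 / Real.cos α) 0 := by
    intro α hα hir φ
    have hp2 : ∀ x, H (1 / Real.cos α) (x + 2 * α) = H (1 / Real.cos α) x := by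
      intro x
      have := hinv2 (x + α) α hα
      rw [add_sub_cancel_right] at this
      rw [← this]
      congr 1
      ring
    refine const_of_periods (hHc _ (hrad α hα)) hp2 (hper _) ?_ φ
    have : 2 * α / (2 * Real.pi) = α / Real.pi := by
      rw [mul_div_mul_left _ _ two_ne_zero]
    rw [this]
    exact hir
  -- all angles by density
  have hall : ∀ α ∈ Ioo (-α1) α1, ∀ φ, H (1 / Real.cos α) φ = H (1 / Real.cos α) 0 := by
    intro α hα φ
    have hdense : Dense {α : ℝ | Irrational (α / Real.pi)} := by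
      have h1 : Dense {x : ℝ | Irrational x} := dense_irrational
      have h2 : {α : ℝ | Irrational (α / Real.pi)} =
          (Homeomorph.mulRight₀ (Real.pi)⁻¹ (inv_ne_zero Real.pi_ne_zero)) ⁻¹' {x | Irrational x} := by
        ext x
        simp [div_eq_mul_inv]
      rw [h2]
      exact h1.preimage (Homeomorph.isOpenMap _)
    have hcF : ∀ ψ, ContinuousOn (fun α => H (1 / Real.cos α) ψ) (Ioo (-α1) α1) := by
      intro ψ
      have hcont : ContinuousOn (Function.uncurry K) U := hK.continuousOn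
      refine hcont.comp ?_ (fun α hα => hηU _ (hrad α hα) ψ)
      have h1 : ContinuousOn (fun α => 1 / Real.cos α) (Ioo (-α1) α1) :=
        continuousOn_const.div Real.continuous_cos.continuousOn fun α hα => (hcos α hα).2.ne'
      unfold ept
      exact (continuousOn_const.add (h1.mul continuousOn_const)).prodMk
        (continuousOn_const.add (h1.mul continuousOn_const))
    -- frequently equal near `α`
    have hfreq : ∃ᶠ x in 𝓝 α, H (1 / Real.cos x) φ = H (1 / Real.cos x) 0 := by
      have h1 : ∃ᶠ x in 𝓝 α, Irrational (x / Real.pi) :=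
        mem_closure_iff_frequently.1 (hdense α)
      have h2 : ∀ᶠ x in 𝓝 α, x ∈ Ioo (-α1) α1 := isOpen_Ioo.mem_nhds hα
      exact (h1.and_eventually h2).mono fun x hx => hirr x hx.2 hx.1 φ
    have hc1 : ContinuousAt (fun x => H (1 / Real.cos x) φ - H (1 / Real.cos x) 0) α :=
      ((hcF φ).continuousAt (isOpen_Ioo.mem_nhds hα)).sub
        ((hcF 0).continuousAt (isOpen_Ioo.mem_nhds hα))
    by_contra hne
    have h3 : ∀ᶠ x in 𝓝 α, H (1 / Real.cos x) φ - H (1 / Real.cos x) 0 ≠ 0 :=
      hc1.eventually_ne (sub_ne_zero.2 hne)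
    exact hfreq (h3.mono fun x hx h => hx (sub_eq_zero.2 h))
  refine ⟨η, hη, fun r hr1 hrη φ => ⟨hηU r (by rw [abs_of_nonneg (by linarith)]; linarith) φ, ?_⟩⟩
  have hr0 : 0 < r := by linarith
  have h1r : 1 / r ≤ 1 := by rw [div_le_one hr0]; exact hr1
  have h1r0 : 0 < 1 / r := by positivity
  have h2 : Real.arccos (1 / r) ∈ Ioo (-α1) α1 := by
    constructor
    · have := Real.arccos_nonneg (1 / r)
      linarith
    · apply Real.arccos_lt_arccos (by linarith) _ h1r
      exact one_div_lt_one_div_of_lt hr0 hrη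
  have h3 := hall _ h2 φ
  rw [Real.cos_arccos (by linarith) h1r, one_div_one_div] at h3
  exact h3

end Pool.Agent.W743.BE
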