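import Pool.Agent.W743.BE.Core
import Pool.Agent.W743.BE.Leaf
import Pool.Agent.H719R4.FX.Fin4
import Pool.Agent.H719R4.FX.CQU
import Pool.Agent.H719R4.FX.CEL

/-! Outer billiards about ovals parametrised by entire functions of order less than one -/

open Complex Set Filter Topology H719FX H738CZ

namespace Pool.Agent.W743.BE

/-- An oval all of whose places are regular is an ellipse. -/
theorem ellipse_of_reg {γ : ℝ → ℂ} {ρ : ℝ → ℝ} (hOv : IsOval γ ρ) {Z W : ℂ → ℂ} {σ : ℝ}
    (hσ : 0 ≤ σ) (hσ1 : σ < 1) (hZd : Differentiable ℂ Z) (pZ : Per Z) (gZ : Gr σ Z)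
    (hs : ∀ t, W t = (starRingEnd ℂ) (Z ((starRingEnd ℂ) t)))
    {θ : ℝ → ℝ} (hθs : Function.Surjective θ) (hγ : ∀ t : ℝ, γ (θ t) = Z t)
    (hmain : ∀ t0 : ℂ, (¬ ∀ᶠ t in 𝓝 t0, Wr Z W t = 0) ∧ Reg Z W t0) :
    ∃ (c : ℂ) (a b d : ℝ), 0 < a ∧ 0 < a * d - b ^ 2 ∧
      Set.range γ = {x : ℂ | a * (x.re - c.re) ^ 2 + 2 * b * (x.re - c.re) * (x.im - c.im)
        + d * (x.im - c.im) ^ 2 = 1} := by
  have hdW : Differentiable ℂ W := by
    have h1 : W = ((starRingEnd ℂ) ∘ Z ∘ (starRingEnd ℂ)) := funext hs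
    rw [h1]
    intro t
    exact differentiableAt_conj_conj_iff.2 (hZd _)
  have hZ : ∀ t : ℝ, Z t = γ (θ t) := fun t => (hγ t).symm
  have hW : ∀ t : ℝ, W t = (starRingEnd ℂ) (γ (θ t)) := by
    intro t
    rw [hs, Complex.conj_ofReal, hZ]
  have hWr : ∃ s, Wr Z W s ≠ 0 := by
    by_contra hcon
    push Not at hcon
    exact (hmain 0).1 (Filter.Eventually.of_forall hcon)
  rcases core hσ hσ1 hZd pZ gZ hs (fun t => (hmain t).1) (fun t => (hmain t).2) with hMi | ⟨m0, hm0⟩
  · exfalso
    obtain ⟨A, B, a, b, c1, c2, hBA, hid⟩ := tTMP _ _ hZd hdW hWr hMi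
    apply tTMO γ ρ hOv A B a b c1 c2 hBA
    intro φ
    obtain ⟨t, rfl⟩ := hθs φ
    have := hid t
    rw [hZ, hW] at this
    exact this
  · obtain ⟨q0, q1, q2, q3, q4, q5, hq, hev⟩ := tCQU Z W 0 m0 1 one_pos hZd.differentiableOn
      hdW.differentiableOn (fun t _ => hm0 t)
    refine tCEL γ ρ hOv q0 q1 q2 q3 q4 q5 hq ?_
    have hall : ∀ t : ℂ, q0 * Z t ^ 2 + q1 * Z t * W t + q2 * W t ^ 2 + q3 * Z t + q4 * W t
        + q5 = 0 := by
      have hd : Differentiable ℂ (fun t => q0 * Z t ^ 2 + q1 * Z t * W t + q2 * W t ^ 2 +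
          q3 * Z t + q4 * W t + q5) := by fun_prop
      have ha : AnalyticOnNhd ℂ (fun t => q0 * Z t ^ 2 + q1 * Z t * W t + q2 * W t ^ 2 +
          q3 * Z t + q4 * W t + q5) univ := fun z _ => hd.analyticAt z
      have h0 := ha.eqOn_zero_of_preconnected_of_eventuallyEq_zero isPreconnected_univ
        (mem_univ 0) (by filter_upwards [hev] with t ht using ht)
      exact fun t => h0 (mem_univ t)
    intro φ
    obtain ⟨t, rfl⟩ := hθs φ
    have := hall t
    rw [hZ, hW] at this
    exact this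

/-- On an ellipse the integral is constant on the homothetic ellipses. -/
theorem ellipse_leaves {γ : ℝ → ℂ} {ρ : ℝ → ℝ} (hOv : IsOval γ ρ) {K : ℝ → ℝ → ℝ}
    {U : Set (ℝ × ℝ)} (hK : OInt γ K U) {c : ℂ} {a b d : ℝ} (ha : 0 < a) (hdet : 0 < a * d - b ^ 2)
    (hr : Set.range γ = {x : ℂ | a * (x.re - c.re) ^ 2 + 2 * b * (x.re - c.re) * (x.im - c.im)
        + d * (x.im - c.im) ^ 2 = 1}) :
    ∃ η > 0, ∀ l : ℝ, 1 ≤ l → l < 1 + η → ∃ κ : ℝ, ∀ x y : ℝ,
      a * (x - c.re) ^ 2 + 2 * b * (x - c.re) * (y - c.im) + d * (y - c.im) ^ 2 = l →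
        (x, y) ∈ U ∧ K x y = κ := by
  set u := c.re with hu
  set v := c.im with hv
  have hd' : 0 < d - b ^ 2 / a := by
    have : d - b ^ 2 / a = (a * d - b ^ 2) / a := by field_simp
    rw [this]
    exact div_pos hdet ha
  set p := Real.sqrt a with hp
  set q := Real.sqrt (d - b ^ 2 / a) with hq
  set k := b / a with hk
  have hp0 : 0 < p := Real.sqrt_pos.2 ha
  have hq0 : 0 < q := Real.sqrt_pos.2 hd'
  have hp2 : p ^ 2 = a := Real.sq_sqrt ha.le
  have hq2 : q ^ 2 = d - b ^ 2 / a := Real.sq_sqrt hd'.le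
  have hka : k * a = b := by rw [hk]; field_simp
  have hQ : ∀ X Y : ℝ, a * X ^ 2 + 2 * b * X * Y + d * Y ^ 2 =
      (p * (X + k * Y)) ^ 2 + (q * Y) ^ 2 := by
    intro X Y
    have h1 : (p * (X + k * Y)) ^ 2 = a * (X + k * Y) ^ 2 := by rw [mul_pow, hp2]
    have h2 : (q * Y) ^ 2 = (d - b ^ 2 / a) * Y ^ 2 := by rw [mul_pow, hq2]
    rw [h1, h2, hk]
    field_simp
    ring
  have hQe : ∀ r φ : ℝ, a * ((ept u v p q k r φ).1 - u) ^ 2 + 2 * b * ((ept u v p q k r φ).1 - u) *
      ((ept u v p q k r φ).2 - v) + d * ((ept u v p q k r φ).2 - v) ^ 2 = r ^ 2 := by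
    intro r φ
    rw [hQ]
    have h1 : p * ((ept u v p q k r φ).1 - u + k * ((ept u v p q k r φ).2 - v)) =
        r * Real.cos φ := by
      simp only [ept]
      field_simp
      ring
    have h2 : q * ((ept u v p q k r φ).2 - v) = r * Real.sin φ := by
      simp only [ept]
      field_simp
      ring
    rw [h1, h2]
    linear_combination r ^ 2 * (Real.sin_sq_add_cos_sq φ)
  -- points on the ellipse
  have hpt : ∀ φ, ∃ s, (γ s).re = (ept u v p q k 1 φ).1 ∧ (γ s).im = (ept u v p q k 1 φ).2 := by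
    intro φ
    have h1 : (⟨(ept u v p q k 1 φ).1, (ept u v p q k 1 φ).2⟩ : ℂ) ∈ Set.range γ := by
      rw [hr]
      have := hQe 1 φ
      rw [one_pow] at this
      exact this
    obtain ⟨s, hs⟩ := h1
    exact ⟨s, by rw [hs], by rw [hs]⟩
  -- orthogonality
  have horth : ∀ s, a * ((γ s).re - u) * (-Real.sin s) + b * ((-Real.sin s) * ((γ s).im - v) +
      ((γ s).re - u) * Real.cos s) + d * ((γ s).im - v) * Real.cos s = 0 := by
    intro s
    have hder := hOv.der s
    have e1 : (ρ s : ℂ) * I * cexp (s * I) = ⟨ρ s * -Real.sin s, ρ s * Real.cos s⟩ := by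
      apply Complex.ext
      · simp [Complex.exp_ofReal_mul_I_re, Complex.exp_ofReal_mul_I_im]
      · simp [Complex.exp_ofReal_mul_I_re, Complex.exp_ofReal_mul_I_im]
    rw [e1] at hder
    have hre : HasDerivAt (fun s => (γ s).re) (ρ s * -Real.sin s) s :=
      Complex.reCLM.hasFDerivAt.comp_hasDerivAt s hder
    have him : HasDerivAt (fun s => (γ s).im) (ρ s * Real.cos s) s :=
      Complex.imCLM.hasFDerivAt.comp_hasDerivAt s hder
    have hconst : ∀ s, a * ((γ s).re - u) ^ 2 + 2 * b * ((γ s).re - u) * ((γ s).im - v)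
        + d * ((γ s).im - v) ^ 2 = 1 := by
      intro s
      have : γ s ∈ Set.range γ := ⟨s, rfl⟩
      rw [hr] at this
      exact this
    have h1 : HasDerivAt (fun s => a * ((γ s).re - u) ^ 2 + 2 * b * ((γ s).re - u) *
        ((γ s).im - v) + d * ((γ s).im - v) ^ 2)
        (a * (2 * ((γ s).re - u) * (ρ s * -Real.sin s)) +
          ((2 * b * (ρ s * -Real.sin s)) * ((γ s).im - v) +
            2 * b * ((γ s).re - u) * (ρ s * Real.cos s)) +
          d * (2 * ((γ s).im - v) * (ρ s * Real.cos s))) s := by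
      have hx := hre.sub_const u
      have hy := him.sub_const v
      have := (((hx.fun_pow 2).const_mul a).fun_add ((hx.const_mul (2 * b)).fun_mul hy)).fun_add
        ((hy.fun_pow 2).const_mul d)
      refine this.congr_deriv ?_
      norm_num
    have h2 : HasDerivAt (fun s => a * ((γ s).re - u) ^ 2 + 2 * b * ((γ s).re - u) *
        ((γ s).im - v) + d * ((γ s).im - v) ^ 2) 0 s := by
      have : (fun s => a * ((γ s).re - u) ^ 2 + 2 * b * ((γ s).re - u) *
        ((γ s).im - v) + d * ((γ s).im - v) ^ 2) = fun _ => (1 : ℝ) := funext hconst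
      rw [this]
      exact hasDerivAt_const s 1
    have h3 := h1.unique h2
    have h4 : 2 * ρ s * (a * ((γ s).re - u) * (-Real.sin s) + b * ((-Real.sin s) * ((γ s).im - v) +
      ((γ s).re - u) * Real.cos s) + d * ((γ s).im - v) * Real.cos s) = 0 := by
      linear_combination h3
    exact (mul_eq_zero.1 h4).resolve_left (mul_ne_zero two_ne_zero (hOv.pos s).ne')
  obtain ⟨η, hη, hleaf⟩ := leaf_coord (K := K) hK.op hK.an (u := u) (v := v) (p := p) (q := q)
    (k := k) (fun φ => by
      obtain ⟨s, h1, h2⟩ := hpt φ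
      have := hK.mem s
      rw [h1, h2] at this
      exact this) (fun φ => by
      obtain ⟨s, h1, h2⟩ := hpt φ
      have horths := horth s
      rw [h1, h2] at horths
      set X := p * (-Real.sin s + k * Real.cos s) with hX
      set Y := q * Real.cos s with hY
      have hxy : Real.cos φ * X + Real.sin φ * Y = 0 := by
        rw [hX, hY]
        simp only [ept] at horths
        have hb : b = k * p ^ 2 := by rw [hp2, hka]
        have hdd : d = q ^ 2 + k ^ 2 * p ^ 2 := by
          rw [hq2, hp2, hk]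
          field_simp
          ring
        rw [hb, hdd, ← hp2] at horths
        have h5 : p * Real.cos φ * (-Real.sin s + k * Real.cos s) + q * Real.sin φ * Real.cos s
            = 0 := by
          rw [← horths]
          field_simp
          ring
        linear_combination h5
      set κ := -Real.sin φ * X + Real.cos φ * Y with hκ
      have hX' : X = -κ * Real.sin φ := by
        rw [hκ]
        linear_combination X * (-(Real.sin_sq_add_cos_sq φ)) + Real.cos φ * hxy
      have hY' : Y = κ * Real.cos φ := by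
        rw [hκ]
        linear_combination Y * (-(Real.sin_sq_add_cos_sq φ)) + Real.sin φ * hxy
      have hcos : Real.cos s = κ * (Real.cos φ / q) := by
        have : Real.cos s = Y / q := by rw [hY]; field_simp
        rw [this, hY']
        ring
      have hsin : -Real.sin s = κ * (-Real.sin φ / p - k * Real.cos φ / q) := by
        have : -Real.sin s = X / p - k * Real.cos s := by rw [hX]; field_simp; ring
        rw [this, hX', hcos]
        ring
      have hκ0 : κ ≠ 0 := by
        intro h0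
        rw [h0, zero_mul] at hcos hsin
        have := Real.sin_sq_add_cos_sq s
        rw [hcos, neg_eq_zero.1 hsin] at this
        norm_num at this
      obtain ⟨ε, hε, hinv⟩ := hK.inv s
      refine ⟨ε * |κ|, by positivity, fun τ hτ hτε => ?_⟩
      have hsq : ∀ τ : ℝ, 0 < Real.sqrt (1 + τ ^ 2) := fun τ => Real.sqrt_pos.2 (by positivity)
      have hplus : ∀ τ : ℝ, ept u v p q k (Real.sqrt (1 + τ ^ 2)) (φ + Real.arctan τ) =
          ((γ s).re - τ / κ * Real.sin s, (γ s).im + τ / κ * Real.cos s) := by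
        intro τ
        rw [h1, h2]
        have hm : -(τ / κ * Real.sin s) = τ * (-Real.sin φ / p - k * Real.cos φ / q) := by
          have : -(τ / κ * Real.sin s) = τ / κ * (-Real.sin s) := by ring
          rw [this, hsin]
          field_simp
        have hm2 : τ / κ * Real.cos s = τ * (Real.cos φ / q) := by
          rw [hcos]
          field_simp
        rw [sub_eq_add_neg, hm, hm2]
        simp only [ept, Real.cos_add, Real.sin_add, Real.cos_arctan, Real.sin_arctan, Prod.mk.injEq]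
        have h0 := (hsq τ).ne'
        constructor
        · field_simp
          ring
        · field_simp
          ring
      have hminus : ept u v p q k (Real.sqrt (1 + τ ^ 2)) (φ - Real.arctan τ) =
          ((γ s).re + τ / κ * Real.sin s, (γ s).im - τ / κ * Real.cos s) := by
        have := hplus (-τ)
        rw [Real.arctan_neg, neg_sq, ← sub_eq_add_neg] at this
        rw [this]
        simp only [Prod.mk.injEq]
        constructor <;> ring
      rw [hplus, hminus]
      simp only [Function.uncurry]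
      rcases lt_or_gt_of_ne hκ0 with hneg | hpos
      · have h3 : 0 < -(τ / κ) := by
          have := div_neg_of_pos_of_neg hτ hneg
          linarith
        have h4 : -(τ / κ) < ε := by
          rw [← div_neg, div_lt_iff₀ (by linarith)]
          rwa [abs_of_neg hneg] at hτε
        have := hinv _ h3 h4
        rw [neg_mul, neg_mul, sub_neg_eq_add, ← sub_eq_add_neg, ← sub_eq_add_neg,
          sub_neg_eq_add] at this
        exact this.symm
      · have h3 : 0 < τ / κ := div_pos hτ hpos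
        have h4 : τ / κ < ε := by
          rw [div_lt_iff₀ hpos]
          rwa [abs_of_pos hpos] at hτε
        exact hinv _ h3 h4)
  refine ⟨η, hη, fun l hl1 hlη => ⟨Function.uncurry K (ept u v p q k (Real.sqrt l) 0), ?_⟩⟩
  intro x y hxy
  have hl0 : 0 ≤ l := by linarith
  have hs1 : 1 ≤ Real.sqrt l := by rw [Real.one_le_sqrt]; exact hl1
  have hs2 : Real.sqrt l < 1 + η := by
    rw [Real.sqrt_lt' (by linarith)]
    nlinarith
  have hs0 : 0 < Real.sqrt l := by linarith
  -- the polar angle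
  obtain ⟨φ, hφ1, hφ2⟩ : ∃ φ : ℝ, p * (x - u + k * (y - v)) = Real.sqrt l * Real.cos φ ∧
      q * (y - v) = Real.sqrt l * Real.sin φ := by
    set X := p * (x - u + k * (y - v)) with hX
    set Y := q * (y - v) with hY
    have hXY : X ^ 2 + Y ^ 2 = l := by
      rw [hX, hY, ← hQ]
      exact hxy
    let z : ℂ := ⟨X, Y⟩
    have hz : ‖z‖ = Real.sqrt l := by
      rw [Complex.norm_def, Complex.normSq_apply]
      congr 1
      simp only [z]
      linarith
    refine ⟨Complex.arg z, ?_, ?_⟩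
    · have := Complex.norm_mul_cos_arg z
      rw [hz] at this
      exact this.symm
    · have := Complex.norm_mul_sin_arg z
      rw [hz] at this
      exact this.symm
  have hept : ept u v p q k (Real.sqrt l) φ = (x, y) := by
    simp only [ept, Prod.mk.injEq]
    have h1 : Real.sqrt l * Real.sin φ / q = y - v := by
      rw [← hφ2]
      field_simp
    have h2 : Real.sqrt l * Real.cos φ / p = x - u + k * (y - v) := by
      rw [← hφ1]
      field_simp
    constructor
    · have : u + Real.sqrt l * (Real.cos φ / p - k * Real.sin φ / q) =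
          u + Real.sqrt l * Real.cos φ / p - k * (Real.sqrt l * Real.sin φ / q) := by ring
      rw [this, h1, h2]
      ring
    · have : v + Real.sqrt l * (Real.sin φ / q) = v + Real.sqrt l * Real.sin φ / q := by ring
      rw [this, h1]
      ring
  obtain ⟨h1, h2⟩ := hleaf (Real.sqrt l) hs1 hs2 φ
  rw [hept] at h1 h2
  exact ⟨h1, h2⟩

/-- Main theorem for outer billiards. -/
theorem main_out {γ : ℝ → ℂ} {ρ : ℝ → ℝ} (hOv : IsOval γ ρ) {K : ℝ → ℝ → ℝ}
    {U : Set (ℝ × ℝ)} (hK : OInt γ K U) {Z : ℂ → ℂ} {σ : ℝ}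
    (hσ : 0 ≤ σ) (hσ1 : σ < 1) (hZd : Differentiable ℂ Z) (pZ : Per Z) (gZ : Gr σ Z)
    {θ : ℝ → ℝ} (hθ : Continuous θ) (hθs : Function.Surjective θ) (hγ : ∀ t : ℝ, γ (θ t) = Z t) :
    ∃ (c : ℂ) (a b d : ℝ), 0 < a ∧ 0 < a * d - b ^ 2 ∧
      Set.range γ = {x : ℂ | a * (x.re - c.re) ^ 2 + 2 * b * (x.re - c.re) * (x.im - c.im)
        + d * (x.im - c.im) ^ 2 = 1} ∧
      ∃ η > 0, ∀ l : ℝ, 1 ≤ l → l < 1 + η → ∃ κ : ℝ, ∀ x y : ℝ,
        a * (x - c.re) ^ 2 + 2 * b * (x - c.re) * (y - c.im) + d * (y - c.im) ^ 2 = l →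
          (x, y) ∈ U ∧ K x y = κ := by
  let W : ℂ → ℂ := fun t => (starRingEnd ℂ) (Z ((starRingEnd ℂ) t))
  have hs : ∀ t, W t = (starRingEnd ℂ) (Z ((starRingEnd ℂ) t)) := fun t => rfl
  have hdW : Differentiable ℂ W := by
    have h1 : W = ((starRingEnd ℂ) ∘ Z ∘ (starRingEnd ℂ)) := rfl
    rw [h1]
    intro t
    exact differentiableAt_conj_conj_iff.2 (hZd _)
  have hZ : ∀ t : ℝ, Z t = γ (θ t) := fun t => (hγ t).symm
  have hW : ∀ t : ℝ, W t = (starRingEnd ℂ) (γ (θ t)) := by
    intro t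
    rw [hs, Complex.conj_ofReal, hZ]
  -- the curve is not constant
  obtain ⟨s1, t1, hst⟩ : ∃ s1 t1 : ℝ, γ (θ s1) ≠ γ (θ t1) := by
    by_contra hcon
    push Not at hcon
    have h1 : γ = fun _ => γ 0 := by
      funext s
      obtain ⟨x, hx⟩ := hθs s
      obtain ⟨y, hy⟩ := hθs 0
      have := hcon x y
      rw [hx, hy] at this
      exact this
    have h2 := hOv.der 0
    have h3 : HasDerivAt γ 0 0 := by
      rw [h1]
      exact hasDerivAt_const (0 : ℝ) (γ 0)
    have h4 := h2.unique h3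
    have h5 : (ρ 0 : ℂ) ≠ 0 := by exact_mod_cast (hOv.pos 0).ne'
    exact (mul_ne_zero (mul_ne_zero h5 I_ne_zero) (Complex.exp_ne_zero _)) h4
  have hmain : ∀ t0 : ℂ, (¬ ∀ᶠ t in 𝓝 t0, Wr Z W t = 0) ∧ Reg Z W t0 := by
    intro t0
    obtain ⟨r, hr⟩ : ∃ r : ℝ, r = |s1| + |t1| + ‖t0‖ + 1 := ⟨_, rfl⟩
    have a1 := abs_nonneg s1
    have a2 := abs_nonneg t1
    have a3 := norm_nonneg t0
    have hmem : ∀ x : ℝ, |x| < r → x ∈ Ioo (-r) r := by
      intro x hx
      exact abs_lt.mp hx
    refine fin_ofo γ ρ hOv K U hK 0 (fun _ => 0) (fun _ => r) (fun _ => Z)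
      (fun _ => W) ⟨fun i _ => hZd.differentiableOn, fun i _ => hdW.differentiableOn,
        fun i hi => absurd hi (Nat.not_lt_zero i), fun i hi => absurd hi (Nat.not_lt_zero i),
        fun i hi => absurd hi (Nat.not_lt_zero i)⟩ θ (-r) r hθ.continuousOn ?_ ?_ t0 ?_
    · intro t ht
      refine ⟨?_, hZ t, hW t⟩
      rw [mem_ball_zero_iff, Complex.norm_real, Real.norm_eq_abs]
      exact abs_lt.mpr ht
    · exact ⟨s1, hmem s1 (by linarith), t1, hmem t1 (by linarith), hst⟩
    · rw [mem_ball_zero_iff]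
      linarith
  obtain ⟨c, a, b, d, ha, hdet, hr⟩ := ellipse_of_reg hOv hσ hσ1 hZd pZ gZ hs hθs hγ hmain
  exact ⟨c, a, b, d, ha, hdet, hr, ellipse_leaves hOv hK ha hdet hr⟩

end Pool.Agent.W743.BE
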