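import Pool.Agent.W743.BE.Grow

/-! No coexistence of periodic solutions of Mathieu's equation -/

open Complex Set Filter Topology MeasureTheory

namespace Pool.Agent.W743.BE

lemma cf_deriv {A : ℂ → ℂ} (hA : Differentiable ℂ A) (pA : Per A) (n : ℤ) :
    cf (deriv A) n = n * I * cf A n := by
  have hd : ∀ x ∈ uIcc (0 : ℝ) (2 * Real.pi), HasDerivAt
      (fun x : ℝ => A x * cexp (-(n * x * I)))
      (deriv A x * cexp (-(n * x * I)) - n * I * (A x * cexp (-(n * x * I)))) x := by
    intro x _
    have h1 : HasDerivAt (fun x : ℝ => A x) (deriv A x) x := (hA x).hasDerivAt.comp_ofReal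
    have h0 : HasDerivAt (fun x : ℝ => (x : ℂ)) 1 x := (hasDerivAt_id x).ofReal_comp
    have h2 : HasDerivAt (fun x : ℝ => -(n * (x : ℂ) * I)) (-(n * 1 * I)) x :=
      ((h0.const_mul (n : ℂ)).mul_const I).neg
    refine (h1.mul h2.cexp).congr_deriv ?_
    ring
  have cA : Continuous (deriv A) := (hA.contDiff (n := 1)).continuous_deriv le_rfl
  have c1 : Continuous fun x : ℝ => deriv A x * cexp (-(n * x * I)) := by fun_prop
  have c2 : Continuous fun x : ℝ => A x * cexp (-(n * x * I)) := by
    have := hA.continuous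
    fun_prop
  have c3 : Continuous fun x : ℝ => (n : ℂ) * I * (A x * cexp (-(n * x * I))) :=
    continuous_const.mul c2
  have h := intervalIntegral.integral_eq_sub_of_hasDerivAt hd
    ((c1.sub c3).intervalIntegrable _ _)
  rw [intervalIntegral.integral_sub (c1.intervalIntegrable _ _)
    (c3.intervalIntegrable _ _), intervalIntegral.integral_const_mul] at h
  have h3 := pA.mul_exp n 0
  simp only [zero_add] at h3
  have h4 : A ((2 * Real.pi : ℝ) : ℂ) * cexp (-(n * ((2 * Real.pi : ℝ) : ℂ) * I)) =
      A ((0 : ℝ) : ℂ) * cexp (-(n * ((0 : ℝ) : ℂ) * I)) := by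
    push_cast
    exact h3
  rw [h4, sub_self] at h
  unfold cf
  linear_combination h

lemma cf_mul_exp {A : ℂ → ℂ} (n : ℤ) : cf (fun t => cexp (t * I) * A t) n = cf A (n - 1) := by
  unfold cf
  refine intervalIntegral.integral_congr fun x _ => ?_
  simp only
  have : cexp (-(((n - 1 : ℤ) : ℂ) * x * I)) = cexp (x * I) * cexp (-(n * x * I)) := by
    rw [← Complex.exp_add]
    congr 1
    push_cast
    ring
  rw [this]
  ring

lemma cf_mul_exp' {A : ℂ → ℂ} (n : ℤ) : cf (fun t => cexp (-(t * I)) * A t) n = cf A (n + 1) := by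
  unfold cf
  refine intervalIntegral.integral_congr fun x _ => ?_
  simp only
  have : cexp (-(((n + 1 : ℤ) : ℂ) * x * I)) = cexp (-(x * I)) * cexp (-(n * x * I)) := by
    rw [← Complex.exp_add]
    congr 1
    push_cast
    ring
  rw [this]
  ring

lemma diff_deriv' {F : ℂ → ℂ} (h : Differentiable ℂ F) : Differentiable ℂ (deriv F) := fun t =>
  (h.analyticAt t).deriv.differentiableAt

/-- the recurrence -/
lemma recur {A : ℂ → ℂ} (hA : Differentiable ℂ A) (pA : Per A) {a b c : ℂ}
    (h : ∀ t, deriv (deriv A) t = (a * cexp (-(t * I)) + b + c * cexp (t * I)) * A t) (n : ℤ) :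
    a * cf A (n + 1) + b * cf A n + c * cf A (n - 1) = -(n : ℂ) ^ 2 * cf A n := by
  have h1 : cf (deriv (deriv A)) n = -(n : ℂ) ^ 2 * cf A n := by
    rw [cf_deriv (diff_deriv' hA) pA.deriv, cf_deriv hA pA]
    linear_combination (n : ℂ) ^ 2 * cf A n * I_sq
  have h2 : deriv (deriv A) = fun t => a * (cexp (-(t * I)) * A t) +
      (b * A t + c * (cexp (t * I) * A t)) := by
    funext t
    rw [h t]
    ring
  have cA := hA.continuous
  rw [h2, cf_add (F := fun t => a * (cexp (-(t * I)) * A t))
    (G := fun t => b * A t + c * (cexp (t * I) * A t)) (by fun_prop) (by fun_prop),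
    cf_add (F := fun t => b * A t) (G := fun t => c * (cexp (t * I) * A t)) (by fun_prop)
    (by fun_prop), cf_const_mul, cf_const_mul, cf_const_mul, cf_mul_exp, cf_mul_exp'] at h1
  rw [← h1]
  ring

lemma cf_bound {A : ℂ → ℂ} (hA : Continuous A) : ∃ M : ℝ, 0 ≤ M ∧ ∀ n, ‖cf A n‖ ≤ M := by
  obtain ⟨M, hM⟩ := isCompact_Icc.exists_bound_of_continuousOn (s := Icc (0 : ℝ) (2 * Real.pi))
    (f := fun x : ℝ => A x) (hA.comp continuous_ofReal).continuousOn
  have hM0 : 0 ≤ M := (norm_nonneg _).trans (hM 0 ⟨le_rfl, by positivity⟩)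
  refine ⟨M * (2 * Real.pi), by positivity, fun n => ?_⟩
  have hb : ∀ x ∈ Set.uIoc (0 : ℝ) (2 * Real.pi), ‖A x * cexp (-(n * x * I))‖ ≤ M := by
    intro x hx
    have hx' : x ∈ Icc (0 : ℝ) (2 * Real.pi) := by
      rw [uIoc_of_le (by positivity)] at hx
      exact Ioc_subset_Icc_self hx
    rw [norm_mul]
    have h1 : ‖cexp (-(n * x * I))‖ = 1 := by
      have : (-((n : ℂ) * x * I)) = ((-(n * x) : ℝ) : ℂ) * I := by push_cast; ring
      rw [this, Complex.norm_exp_ofReal_mul_I]
    rw [h1, mul_one]
    exact hM x hx'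
  have := intervalIntegral.norm_integral_le_of_norm_le_const hb
  rw [sub_zero, abs_of_pos (show 0 < 2 * Real.pi by positivity)] at this
  exact this

lemma cf_tendsto {A : ℂ → ℂ} (hA : Differentiable ℂ A) (pA : Per A) :
    Tendsto (fun n : ℕ => cf A (n : ℤ)) atTop (𝓝 0) := by
  obtain ⟨M, hM0, hM⟩ := cf_bound (A := deriv A) (diff_deriv' hA).continuous
  have h1 : ∀ n : ℕ, 1 ≤ n → ‖cf A (n : ℤ)‖ ≤ M * (1 / (n : ℝ)) := by
    intro n hn
    have h2 := hM n
    rw [cf_deriv hA pA, norm_mul, norm_mul, norm_I, mul_one] at h2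
    have h3 : ‖(((n : ℤ) : ℂ))‖ = n := by simp
    rw [h3] at h2
    have h4 : (0 : ℝ) < n := by exact_mod_cast hn
    rw [mul_one_div, le_div_iff₀ h4]
    linarith
  rw [tendsto_zero_iff_norm_tendsto_zero]
  refine squeeze_zero' (Eventually.of_forall fun n => norm_nonneg _)
    (by filter_upwards [eventually_ge_atTop 1] with n hn using h1 n hn) ?_
  have := tendsto_one_div_atTop_nhds_zero_nat (𝕜 := ℝ)
  simpa using this.const_mul M

/-- **Ince**: no coexistence for Mathieu's equation -/
theorem ince {A B : ℂ → ℂ} (hA : Differentiable ℂ A) (hB : Differentiable ℂ B) (pA : Per A)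
    (pB : Per B) {a b c : ℂ} (hac : ‖a‖ = ‖c‖) (ha : a ≠ 0)
    (eA : ∀ t, deriv (deriv A) t = (a * cexp (-(t * I)) + b + c * cexp (t * I)) * A t)
    (eB : ∀ t, deriv (deriv B) t = (a * cexp (-(t * I)) + b + c * cexp (t * I)) * B t) :
    ∀ t, A t * deriv B t - deriv A t * B t = 0 := by
  have hc : c ≠ 0 := by rw [← norm_pos_iff, ← hac]; exact norm_pos_iff.2 ha
  have rA := recur hA pA eA
  have rB := recur hB pB eB
  let C : ℤ → ℂ := fun n => cf A n * cf B (n + 1) - cf A (n + 1) * cf B n
  have hC : ∀ n, a * C n = c * C (n - 1) := by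
    intro n
    simp only [C]
    rw [show n - 1 + 1 = n by ring]
    linear_combination cf A n * rB n - cf B n * rA n
  have hCn : ∀ n, ‖C n‖ = ‖C (n - 1)‖ := by
    intro n
    have := congrArg norm (hC n)
    rw [norm_mul, norm_mul, ← hac] at this
    exact mul_left_cancel₀ (norm_pos_iff.2 ha).ne' this
  have hC0 : ∀ n, ‖C n‖ = ‖C 0‖ := by
    intro n
    induction n using Int.induction_on with
    | zero => rfl
    | succ k ih => rw [hCn, show (k : ℤ) + 1 - 1 = k by ring, ih]
    | pred k ih => rw [← hCn, ih]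
  have hlim : Tendsto (fun n : ℕ => C (n : ℤ)) atTop (𝓝 0) := by
    have h1 := cf_tendsto hA pA
    have h2 := cf_tendsto hB pB
    have h1' := h1.comp (tendsto_add_atTop_nat 1)
    have h2' := h2.comp (tendsto_add_atTop_nat 1)
    have := (h1.mul h2').sub (h1'.mul h2)
    simp only [mul_zero, sub_zero] at this
    refine this.congr fun n => ?_
    simp only [C, Function.comp]
    push_cast
    rfl
  have hCz : ∀ n, C n = 0 := by
    have h1 : Tendsto (fun n : ℕ => ‖C (n : ℤ)‖) atTop (𝓝 0) := by simpa using hlim.norm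
    have h2 : Tendsto (fun _ : ℕ => ‖C 0‖) atTop (𝓝 0) := by
      refine h1.congr fun n => hC0 n
    have h3 : ‖C 0‖ = 0 := tendsto_nhds_unique tendsto_const_nhds h2
    intro n
    rw [← norm_eq_zero, hC0 n, h3]
  by_cases hz : ∀ n, cf A n = 0
  · have h1 := eq_zero_of_cf hA pA hz
    have h2 : A = fun _ => 0 := funext h1
    intro t
    rw [h2]
    simp
  · push Not at hz
    obtain ⟨n0, hn0⟩ := hz
    let d : ℤ → ℂ := fun n => cf B n0 * cf A n - cf A n0 * cf B n
    have hd : ∀ n, a * d (n + 1) + b * d n + c * d (n - 1) = -(n : ℂ) ^ 2 * d n := by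
      intro n
      simp only [d]
      linear_combination cf B n0 * rA n - cf A n0 * rB n
    have h0 : d n0 = 0 := by simp only [d]; ring
    have h1 : d (n0 + 1) = 0 := by
      have := hCz n0
      simp only [C] at this
      simp only [d]
      linear_combination -this
    have hall : ∀ k : ℤ, d (n0 + k) = 0 ∧ d (n0 + k + 1) = 0 := by
      intro k
      induction k using Int.induction_on with
      | zero => simpa using ⟨h0, h1⟩
      | succ k ih =>
        obtain ⟨i1, i2⟩ := ih
        refine ⟨by rw [← add_assoc]; exact i2, ?_⟩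
        have h2 := hd (n0 + k + 1)
        rw [i2, show n0 + (k : ℤ) + 1 - 1 = n0 + k by ring, i1] at h2
        rw [← add_assoc]
        have h3 : a * d (n0 + k + 1 + 1) = 0 := by linear_combination h2
        exact (mul_eq_zero.1 h3).resolve_left ha
      | pred k ih =>
        obtain ⟨i1, i2⟩ := ih
        have h2 := hd (n0 + -(k : ℤ))
        rw [i1, i2] at h2
        have h3 : c * d (n0 + -(k : ℤ) - 1) = 0 := by linear_combination h2
        have h4 := (mul_eq_zero.1 h3).resolve_left hc
        refine ⟨by rw [show n0 + (-(k : ℤ) - 1) = n0 + -(k : ℤ) - 1 by ring]; exact h4, ?_⟩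
        rw [show n0 + (-(k : ℤ) - 1) + 1 = n0 + -(k : ℤ) by ring]
        exact i1
    have hdz : ∀ n, d n = 0 := by
      intro n
      have := (hall (n - n0)).1
      rwa [add_sub_cancel] at this
    have hD : ∀ t, cf B n0 * A t - cf A n0 * B t = 0 := by
      refine eq_zero_of_cf (F := fun t => cf B n0 * A t - cf A n0 * B t) (by fun_prop) ?_ ?_
      · intro t
        simp only
        rw [pA t, pB t]
      · intro n
        have cA := hA.continuous
        have cB := hB.continuous
        rw [cf_sub (F := fun t => cf B n0 * A t) (G := fun t => cf A n0 * B t) (by fun_prop)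
          (by fun_prop), cf_const_mul, cf_const_mul]
        exact hdz n
    obtain ⟨κ, hB2⟩ : ∃ κ : ℂ, B = fun t => κ * A t := by
      refine ⟨cf B n0 / cf A n0, ?_⟩
      funext t
      have := hD t
      field_simp
      linear_combination -this
    intro t
    have h5 : deriv B t = κ * deriv A t := by
      rw [hB2]
      exact deriv_const_mul _ (hA t)
    have h6 : B t = κ * A t := congrFun hB2 t
    rw [h5, h6]
    ring

end Pool.Agent.W743.BE
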