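import Pool.Agent.H719R4.FX.TMI

/-! The quadratic differential `κ dσ²` of a curve all of whose places are regular -/

open Complex Set Filter Topology H719FX

namespace Pool.Agent.W743.BE

/-- local structure at a regular place -/
theorem reg_loc {Z W : ℂ → ℂ} {t0 : ℂ} (hR : Reg Z W t0) : ∃ k w m : ℂ → ℂ,
    AnalyticAt ℂ k t0 ∧ AnalyticAt ℂ w t0 ∧ AnalyticAt ℂ m t0 ∧ w t0 ≠ 0 ∧
    (∀ᶠ t in 𝓝 t0, Wr Z W t = k t ^ 3 * w t) ∧ (∀ᶠ t in 𝓝 t0, Mi Z W t = k t ^ 8 * m t) := by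
  obtain ⟨h, A, B, hh, h0, hA, hB, hZ, hW, hw⟩ := hR
  rw [← h0] at hA hB
  have eW : Wr Z W =ᶠ[𝓝 t0] fun t => deriv h t ^ 3 * Wr A B (h t) := by
    filter_upwards [TMI_three hA hh hZ, TMI_three hB hh hW] with t ⟨a1, a2, a3⟩ ⟨b1, b2, b3⟩
    simp only [Wr]
    rw [a1, a2, b1, b2]
    ring
  have hwa := TMI_wr_an hA hB
  have eW1 : deriv (Wr Z W) =ᶠ[𝓝 t0] fun t => 3 * deriv h t ^ 2 * deriv (deriv h) t *
      Wr A B (h t) + deriv h t ^ 4 * deriv (Wr A B) (h t) := by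
    filter_upwards [eW.deriv, TMI_chain hwa hh, TMI_self hh.deriv] with t b1 b2 b3
    rw [b1, ((b3.fun_pow 3).fun_mul b2).deriv]
    push_cast
    ring
  have eW2 : deriv (deriv (Wr Z W)) =ᶠ[𝓝 t0] fun t =>
      (6 * deriv h t * deriv (deriv h) t ^ 2 + 3 * deriv h t ^ 2 * deriv (deriv (deriv h)) t) *
        Wr A B (h t) + 7 * deriv h t ^ 3 * deriv (deriv h) t * deriv (Wr A B) (h t) +
        deriv h t ^ 5 * deriv (deriv (Wr A B)) (h t) := by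
    filter_upwards [eW1.deriv, TMI_chain hwa hh, TMI_chain hwa.deriv hh, TMI_self hh.deriv,
      TMI_self hh.deriv.deriv] with t b1 b2 b3 b4 b5
    rw [b1, ((((((b4.fun_pow 2).const_mul 3).fun_mul b5)).fun_mul b2).fun_add
      ((b4.fun_pow 4).fun_mul b3)).deriv]
    push_cast
    ring
  have hwd : ∀ᶠ t in 𝓝 t0, deriv (Wr A B) (h t) =
      deriv A (h t) * deriv (deriv (deriv B)) (h t) -
        deriv (deriv (deriv A)) (h t) * deriv B (h t) :=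
    hh.continuousAt.eventually (TMI_wr_deriv hA hB)
  have eM : ∀ᶠ t in 𝓝 t0, Mi Z W t = deriv h t ^ 8 * Mi A B (h t) := by
    filter_upwards [TMI_three hA hh hZ, TMI_three hB hh hW, eW, eW1, eW2, hwd] with t
      ⟨a1, a2, a3⟩ ⟨b1, b2, b3⟩ c0 c1 c2 c3
    simp only [Mi]
    rw [c0, c1, c2, a2, a3, b2, b3, c3]
    simp only [Wr]
    ring
  have hMan : AnalyticAt ℂ (Mi A B) (h t0) := by
    have : Mi A B = fun t => 5 / 9 * (deriv (Wr A B) t) ^ 2 -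
      1 / 3 * deriv (deriv (Wr A B)) t * Wr A B t
      - (deriv (deriv A) t * deriv (deriv (deriv B)) t
        - deriv (deriv (deriv A)) t * deriv (deriv B) t) * Wr A B t := rfl
    rw [this]
    exact (((analyticAt_const.fun_mul (hwa.deriv.fun_pow 2)).fun_sub
      ((analyticAt_const.fun_mul hwa.deriv.deriv).fun_mul hwa)).fun_sub
      (((hA.deriv.deriv.fun_mul hB.deriv.deriv.deriv).fun_sub
        (hA.deriv.deriv.deriv.fun_mul hB.deriv.deriv)).fun_mul hwa))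
  refine ⟨deriv h, fun t => Wr A B (h t), fun t => Mi A B (h t), hh.deriv, hwa.comp hh,
    hMan.comp hh, ?_, eW, eM⟩
  show Wr A B (h t0) ≠ 0
  rw [h0]
  exact hw

/-- gluing of local quotients -/
theorem glue {F G : ℂ → ℂ} (hG : ∀ t, AnalyticAt ℂ G t) (hne : ∀ t, ¬ ∀ᶠ s in 𝓝 t, G s = 0)
    (hloc : ∀ t, ∃ p : ℂ → ℂ, AnalyticAt ℂ p t ∧ ∀ᶠ s in 𝓝 t, F s = p s * G s) :
    ∃ P : ℂ → ℂ, Differentiable ℂ P ∧ (∀ t, F t = P t * G t) ∧
      ∀ t (p : ℂ → ℂ), AnalyticAt ℂ p t → (∀ᶠ s in 𝓝 t, F s = p s * G s) → P =ᶠ[𝓝 t] p := by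
  choose p hp hpF using hloc
  have huniq : ∀ (t : ℂ) (q1 q2 : ℂ → ℂ), AnalyticAt ℂ q1 t → AnalyticAt ℂ q2 t →
      (∀ᶠ s in 𝓝 t, F s = q1 s * G s) → (∀ᶠ s in 𝓝 t, F s = q2 s * G s) → q1 t = q2 t := by
    intro t q1 q2 h1 h2 e1 e2
    have hG0 : ∀ᶠ s in 𝓝[≠] t, G s ≠ 0 := by
      rcases (hG t).eventually_eq_zero_or_eventually_ne_zero with h | h
      · exact absurd h (hne t)
      · exact h
    have h3 : ∀ᶠ s in 𝓝[≠] t, (q1 s - q2 s) = 0 := by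
      filter_upwards [hG0, e1.filter_mono nhdsWithin_le_nhds, e2.filter_mono nhdsWithin_le_nhds]
        with s a1 a2 a3
      have : (q1 s - q2 s) * G s = 0 := by rw [sub_mul, ← a2, ← a3, sub_self]
      exact (mul_eq_zero.1 this).resolve_right a1
    have h4 : Tendsto (fun s => q1 s - q2 s) (𝓝[≠] t) (𝓝 (q1 t - q2 t)) :=
      ((h1.continuousAt.sub h2.continuousAt).tendsto).mono_left nhdsWithin_le_nhds
    have h5 : Tendsto (fun s => q1 s - q2 s) (𝓝[≠] t) (𝓝 0) := by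
      refine tendsto_const_nhds.congr' ?_
      filter_upwards [h3] with s hs using hs.symm
    exact sub_eq_zero.1 (tendsto_nhds_unique h4 h5)
  have hkey : ∀ t (q : ℂ → ℂ), AnalyticAt ℂ q t → (∀ᶠ s in 𝓝 t, F s = q s * G s) →
      (fun s => p s s) =ᶠ[𝓝 t] q := by
    intro t q hq hqF
    filter_upwards [hq.eventually_analyticAt, hqF.eventually_nhds] with s h1 h2
    exact huniq s (p s) q (hp s) h1 (hpF s) h2
  refine ⟨fun s => p s s, ?_, fun t => (hpF t).self_of_nhds, hkey⟩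
  intro t
  exact ((hp t).congr (hkey t (p t) (hp t) (hpF t)).symm).differentiableAt

/-- the derivative of an entire function is entire -/
lemma diff_deriv {F : ℂ → ℂ} (h : Differentiable ℂ F) : Differentiable ℂ (deriv F) := fun t =>
  (h.analyticAt t).deriv.differentiableAt

lemma wr_diff {Z W : ℂ → ℂ} (hZ : Differentiable ℂ Z) (hW : Differentiable ℂ W) :
    Differentiable ℂ (Wr Z W) := fun t =>
  (TMI_wr_an (hZ.analyticAt t) (hW.analyticAt t)).differentiableAt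

lemma wr_deriv {Z W : ℂ → ℂ} (hZ : Differentiable ℂ Z) (hW : Differentiable ℂ W) (t : ℂ) :
    deriv (Wr Z W) t = deriv Z t * deriv (deriv (deriv W)) t -
      deriv (deriv (deriv Z)) t * deriv W t :=
  (TMI_wr_deriv (hZ.analyticAt t) (hW.analyticAt t)).self_of_nhds

/-- the quadratic differential -/
theorem quad {Z W : ℂ → ℂ} (hZ : Differentiable ℂ Z) (hW : Differentiable ℂ W)
    (hne : ∀ t, ¬ ∀ᶠ s in 𝓝 t, Wr Z W s = 0) (hR : ∀ t, Reg Z W t) :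
    ∃ P : ℂ → ℂ, Differentiable ℂ P ∧ (∀ t, Mi Z W t = P t * Wr Z W t ^ 2) ∧
      ∀ t, Wr Z W t = 0 → ∃ k v w : ℂ → ℂ, AnalyticAt ℂ k t ∧ AnalyticAt ℂ v t ∧
        AnalyticAt ℂ w t ∧ w t ≠ 0 ∧ k t = 0 ∧ (∀ᶠ s in 𝓝 t, P s = k s ^ 2 * v s) ∧
        ∀ᶠ s in 𝓝 t, Wr Z W s = k s ^ 3 * w s := by
  have hG : ∀ t, AnalyticAt ℂ (fun s => Wr Z W s ^ 2) t := fun t =>
    ((wr_diff hZ hW).analyticAt t).fun_pow 2
  have hloc : ∀ t k w m, AnalyticAt ℂ k t → AnalyticAt ℂ w t → AnalyticAt ℂ m t → w t ≠ 0 →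
    (∀ᶠ s in 𝓝 t, Wr Z W s = k s ^ 3 * w s) → (∀ᶠ s in 𝓝 t, Mi Z W s = k s ^ 8 * m s) →
    AnalyticAt ℂ (fun s => k s ^ 2 * (m s / w s ^ 2)) t ∧ ∀ᶠ s in 𝓝 t,
      Mi Z W s = (k s ^ 2 * (m s / w s ^ 2)) * Wr Z W s ^ 2 := by
    intro t k w m hk hw hm hw0 e1 e2
    refine ⟨(hk.fun_pow 2).fun_mul (hm.fun_div (hw.fun_pow 2) (pow_ne_zero 2 hw0)), ?_⟩
    filter_upwards [e1, e2, hw.continuousAt.eventually_ne hw0] with s a1 a2 a3
    rw [a1, a2]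
    field_simp
  obtain ⟨P, hP, hPM, hPu⟩ := glue (F := Mi Z W) (G := fun s => Wr Z W s ^ 2) hG
    (fun t hcon => hne t (by filter_upwards [hcon] with s hs using pow_eq_zero_iff two_ne_zero |>.1 hs))
    (fun t => by
      obtain ⟨k, w, m, hk, hw, hm, hw0, e1, e2⟩ := reg_loc (hR t)
      exact ⟨_, hloc t k w m hk hw hm hw0 e1 e2⟩)
  refine ⟨P, hP, hPM, fun t ht => ?_⟩
  obtain ⟨k, w, m, hk, hw, hm, hw0, e1, e2⟩ := reg_loc (hR t)
  obtain ⟨h1, h2⟩ := hloc t k w m hk hw hm hw0 e1 e2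
  refine ⟨k, fun s => m s / w s ^ 2, w, hk, hm.fun_div (hw.fun_pow 2) (pow_ne_zero 2 hw0), hw,
    hw0, ?_, hPu t _ h1 h2, e1⟩
  have h3 := e1.self_of_nhds
  rw [ht] at h3
  have h4 := (mul_eq_zero.1 h3.symm).resolve_right hw0
  exact pow_eq_zero_iff (by norm_num) |>.1 h4

/-- the quadratic differential in terms of logarithmic derivatives -/
theorem rel_alg {A A1 A2 B B1 B2 D D1 D2 P : ℂ} (hA : A ≠ 0) (hD : D ≠ 0)
    (hd : D = A * B1 - A1 * B) (hd1 : D1 = A * B2 - A2 * B)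
    (hM : 5 / 9 * D1 ^ 2 - 1 / 3 * D2 * D - (A1 * B2 - A2 * B1) * D = P * D ^ 2) :
    P = (A2 / A - A1 ^ 2 / A ^ 2 - (D2 / D - D1 ^ 2 / D ^ 2) / 3) + (A1 / A - D1 / D / 3) ^ 2 -
      D1 / D / 3 * (A1 / A - D1 / D / 3) := by
  have key : A2 * D - A1 * D1 = -A * (A1 * B2 - A2 * B1) := by
    rw [hd, hd1]
    ring
  have h1 : P * (A * D ^ 2) = 5 / 9 * D1 ^ 2 * A - 1 / 3 * D2 * D * A + (A2 * D - A1 * D1) * D := by
    rw [key]
    linear_combination -A * hM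
  have h2 : P = (5 / 9 * D1 ^ 2 * A - 1 / 3 * D2 * D * A + (A2 * D - A1 * D1) * D) / (A * D ^ 2) := by
    rw [← h1]
    field_simp
  rw [h2]
  field_simp
  ring

end Pool.Agent.W743.BE
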