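import Pool.Agent.W743.BE.Cas
import Pool.Agent.W743.BE.Quot

/-! Regular entire curves of order less than one -/

open Complex Set Filter Topology H719FX

namespace Pool.Agent.W743.BE

lemma eq_of_mul {Q1 Q2 G : ℂ → ℂ} {t : ℂ} (h1 : Continuous Q1) (h2 : Continuous Q2)
    (hG : AnalyticAt ℂ G t) (hne : ¬ ∀ᶠ s in 𝓝 t, G s = 0) (h : ∀ s, Q1 s * G s = Q2 s * G s) :
    Q1 t = Q2 t := by
  have hG0 : ∀ᶠ s in 𝓝[≠] t, G s ≠ 0 := by
    rcases hG.eventually_eq_zero_or_eventually_ne_zero with h | h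
    · exact absurd h hne
    · exact h
  have h3 : ∀ᶠ s in 𝓝[≠] t, Q1 s = Q2 s := by
    filter_upwards [hG0] with s a1
    exact mul_right_cancel₀ a1 (h s)
  have h4 : Tendsto Q1 (𝓝[≠] t) (𝓝 (Q1 t)) := (h1.tendsto t).mono_left nhdsWithin_le_nhds
  have h5 : Tendsto Q2 (𝓝[≠] t) (𝓝 (Q2 t)) := (h2.tendsto t).mono_left nhdsWithin_le_nhds
  exact tendsto_nhds_unique h4 (h5.congr' (by filter_upwards [h3] with s hs using hs.symm))

lemma deriv_cj {F G : ℂ → ℂ} (h : ∀ t, G t = (starRingEnd ℂ) (F ((starRingEnd ℂ) t))) (t : ℂ) :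
    deriv G t = (starRingEnd ℂ) (deriv F ((starRingEnd ℂ) t)) := by
  have h1 : G = ((starRingEnd ℂ) ∘ F ∘ (starRingEnd ℂ)) := funext h
  rw [h1, deriv_conj_conj]
  rfl

lemma deriv_ncj {F : ℂ → ℂ} (h : ∀ t, F t = -(starRingEnd ℂ) (F ((starRingEnd ℂ) t))) (t : ℂ) :
    deriv F t = -(starRingEnd ℂ) (deriv F ((starRingEnd ℂ) t)) := by
  have h1 : ∀ t, (fun s => -F s) t = (starRingEnd ℂ) (F ((starRingEnd ℂ) t)) := fun t => by
    show -F t = _
    rw [h t, neg_neg]
  have h2 := deriv_cj h1 t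
  have h3 : deriv (fun s => -F s) t = -deriv F t := deriv.fun_neg
  rw [h3] at h2
  rw [← h2, neg_neg]

section

variable {Z W : ℂ → ℂ}

lemma sym_wr (hs : ∀ t, W t = (starRingEnd ℂ) (Z ((starRingEnd ℂ) t))) (t : ℂ) : Wr Z W t = -(starRingEnd ℂ) (Wr Z W ((starRingEnd ℂ) t)) := by
  have hs' : ∀ t, Z t = (starRingEnd ℂ) (W ((starRingEnd ℂ) t)) := fun t => by rw [hs]; simp
  have w1 := deriv_cj hs
  have w2 := deriv_cj w1
  have z1 := deriv_cj hs'
  have z2 := deriv_cj z1
  unfold Wr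
  rw [w1 t, w2 t, z1 t, z2 t]
  simp only [map_sub, map_mul]
  ring

lemma sym_mi (hs : ∀ t, W t = (starRingEnd ℂ) (Z ((starRingEnd ℂ) t))) (t : ℂ) : Mi Z W t = (starRingEnd ℂ) (Mi Z W ((starRingEnd ℂ) t)) := by
  have hs' : ∀ t, Z t = (starRingEnd ℂ) (W ((starRingEnd ℂ) t)) := fun t => by rw [hs]; simp
  have w1 := deriv_cj hs
  have w2 := deriv_cj w1
  have w3 := deriv_cj w2
  have z1 := deriv_cj hs'
  have z2 := deriv_cj z1
  have z3 := deriv_cj z2
  have d0 := sym_wr hs
  have d1 := deriv_ncj d0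
  have d2 := deriv_ncj d1
  unfold Mi
  rw [d0 t, d1 t, d2 t, w2 t, w3 t, z2 t, z3 t]
  simp only [map_sub, map_mul, map_pow, map_div₀, map_ofNat, map_one]
  ring

/-- zeros of the Wronskian are impossible if the quadratic differential is a nonzero
trigonometric polynomial of degree one -/
theorem no_zero (hZ : Differentiable ℂ Z) (hW : Differentiable ℂ W) (pWr : Per (Wr Z W))
    (hs : ∀ t, W t = (starRingEnd ℂ) (Z ((starRingEnd ℂ) t))) {P : ℂ → ℂ}
    (hloc : ∀ t, Wr Z W t = 0 → ∃ k v w : ℂ → ℂ, AnalyticAt ℂ k t ∧ AnalyticAt ℂ v t ∧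
        AnalyticAt ℂ w t ∧ w t ≠ 0 ∧ k t = 0 ∧ (∀ᶠ s in 𝓝 t, P s = k s ^ 2 * v s) ∧
        ∀ᶠ s in 𝓝 t, Wr Z W s = k s ^ 3 * w s)
    {a b c : ℂ} (hP : ∀ t, P t = a * cexp (-(t * I)) + b + c * cexp (t * I))
    (hP0 : ∃ t, P t ≠ 0) (t0 : ℂ) : Wr Z W t0 ≠ 0 := by
  intro h0
  obtain ⟨k, v, w, hk, hv, hw, hw0, hk0, hPk, hWk⟩ := hloc t0 h0
  have hPz : ∀ t, Wr Z W t = 0 → P t = 0 := by
    intro t ht
    obtain ⟨k, v, w, -, -, -, -, hk0, hPk, -⟩ := hloc t ht
    rw [hPk.self_of_nhds, hk0]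
    ring
  -- the first derivative of `P` vanishes
  have hdP : deriv P t0 = 0 := by
    have h1 : deriv P t0 = deriv (fun s => k s ^ 2 * v s) t0 := Filter.EventuallyEq.deriv_eq hPk
    have h2 : HasDerivAt (fun s => k s ^ 2 * v s) (2 * k t0 ^ 1 * deriv k t0 * v t0 +
        k t0 ^ 2 * deriv v t0) t0 := by
      have := (hk.differentiableAt.hasDerivAt.fun_pow 2).fun_mul hv.differentiableAt.hasDerivAt
      refine this.congr_deriv ?_
      norm_num
    rw [h1, h2.deriv, hk0]
    ring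
  have hdP' : deriv P t0 = -I * a * cexp (-(t0 * I)) + I * c * cexp (t0 * I) := by
    have h1 : P = fun t => a * cexp (-(t * I)) + b + c * cexp (t * I) := funext hP
    have h2 : HasDerivAt (fun t : ℂ => -(t * I)) (-(1 * I)) t0 :=
      ((hasDerivAt_id t0).mul_const I).fun_neg
    have h3 : HasDerivAt (fun t : ℂ => t * I) (1 * I) t0 := (hasDerivAt_id t0).mul_const I
    have h4 := ((h2.cexp.const_mul a).add_const b).fun_add (h3.cexp.const_mul c)
    rw [h1, h4.deriv]
    ring
  have hP00 : a * cexp (-(t0 * I)) + b + c * cexp (t0 * I) = 0 := by rw [← hP]; exact hPz t0 h0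
  set q : ℂ := c * cexp (t0 * I) with hq
  have hq2 : a * cexp (-(t0 * I)) = q := by
    rw [hdP] at hdP'
    have : I * (q - a * cexp (-(t0 * I))) = 0 := by rw [hq]; linear_combination -hdP'
    have := (mul_eq_zero.1 this).resolve_left I_ne_zero
    linear_combination -this
  have hb : b = -2 * q := by rw [hq2] at hP00; linear_combination hP00
  have hq0 : q ≠ 0 := by
    intro hq'
    obtain ⟨t, ht⟩ := hP0
    apply ht
    rw [hq'] at hq2 hb
    have ha : a = 0 := (mul_eq_zero.1 hq2).resolve_right (Complex.exp_ne_zero _)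
    have hc : c = 0 := by
      rw [hq'] at hq
      exact (mul_eq_zero.1 hq.symm).resolve_right (Complex.exp_ne_zero _)
    rw [hP, ha, hc, hb]
    ring
  have hPs : ∀ s : ℂ, P (t0 + s) = q * (cexp (s * I) - 1) ^ 2 * cexp (-(s * I)) := by
    intro s
    have e1 : cexp (-((t0 + s) * I)) = cexp (-(t0 * I)) * cexp (-(s * I)) := by
      rw [← Complex.exp_add]; congr 1; ring
    have e2 : cexp ((t0 + s) * I) = cexp (t0 * I) * cexp (s * I) := by
      rw [← Complex.exp_add]; congr 1; ring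
    have e3 : cexp (s * I) * cexp (-(s * I)) = 1 := by
      rw [← Complex.exp_add, add_neg_cancel, Complex.exp_zero]
    rw [hP, e1, e2, hb]
    have h5 : a * (cexp (-(t0 * I)) * cexp (-(s * I))) = q * cexp (-(s * I)) := by
      rw [← hq2]; ring
    have h6 : c * (cexp (t0 * I) * cexp (s * I)) = q * cexp (s * I) := by rw [hq]; ring
    rw [h5, h6]
    linear_combination (-q * cexp (s * I) + 2 * q) * e3
  have hzero : ∀ t1, Wr Z W t1 = 0 → ∃ n : ℤ, t1 = t0 + n * (2 * Real.pi) := by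
    intro t1 ht1
    have h1 := hPz t1 ht1
    have h2 := hPs (t1 - t0)
    rw [add_sub_cancel, h1] at h2
    have h3 : (cexp ((t1 - t0) * I) - 1) ^ 2 = 0 := by
      have := (mul_eq_zero.1 h2.symm).resolve_right (Complex.exp_ne_zero _)
      exact (mul_eq_zero.1 this).resolve_left hq0
    have h4 : cexp ((t1 - t0) * I) = 1 := sub_eq_zero.1 (pow_eq_zero_iff two_ne_zero |>.1 h3)
    obtain ⟨n, hn⟩ := Complex.exp_eq_one_iff.1 h4
    refine ⟨n, ?_⟩
    have h5 : (t1 - t0 - n * (2 * Real.pi)) * I = 0 := by linear_combination hn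
    have := (mul_eq_zero.1 h5).resolve_right I_ne_zero
    linear_combination this
  -- `t0` is real
  obtain ⟨x0, hx0⟩ : ∃ x0 : ℝ, t0 = x0 := by
    have h1 : Wr Z W ((starRingEnd ℂ) t0) = 0 := by
      have := sym_wr hs t0
      rw [h0] at this
      have h2 : (starRingEnd ℂ) (Wr Z W ((starRingEnd ℂ) t0)) = 0 := by linear_combination this
      exact (map_eq_zero _).1 h2
    obtain ⟨n, hn⟩ := hzero _ h1
    have h2 := congrArg Complex.im hn
    simp only [conj_im, add_im, mul_im, intCast_re, intCast_im, ofReal_im, ofReal_re, re_ofNat,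
      im_ofNat, mul_zero, zero_mul, add_zero, mul_re, sub_zero] at h2
    refine ⟨t0.re, ?_⟩
    apply Complex.ext
    · simp
    · simp only [ofReal_im]
      linarith
  subst hx0
  -- limits
  have hL : Tendsto (fun s : ℂ => k s / (s - x0)) (𝓝[≠] (x0 : ℂ)) (𝓝 (deriv k x0)) := by
    have := hasDerivAt_iff_tendsto_slope.1 hk.differentiableAt.hasDerivAt
    refine this.congr fun s => ?_
    rw [slope_def_field, hk0, sub_zero]
  have hE : Tendsto (fun s : ℂ => (cexp ((s - x0) * I) - 1) / (s - x0)) (𝓝[≠] (x0 : ℂ)) (𝓝 I) := by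
    have h1 : HasDerivAt (fun s : ℂ => cexp ((s - x0) * I)) I (x0 : ℂ) := by
      have h2 : HasDerivAt (fun s : ℂ => (s - x0) * I) (1 * I) (x0 : ℂ) :=
        ((hasDerivAt_id (x0 : ℂ)).sub_const (x0 : ℂ)).mul_const I
      refine h2.cexp.congr_deriv ?_
      simp
    have := hasDerivAt_iff_tendsto_slope.1 h1
    refine this.congr fun s => ?_
    rw [slope_def_field]
    simp
  have hk1 : deriv k x0 ≠ 0 := by
    intro hcon
    rw [hcon] at hL
    have h1 : Tendsto (fun s : ℂ => (k s / (s - x0)) ^ 2 * v s) (𝓝[≠] (x0 : ℂ)) (𝓝 0) := by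
      have := (hL.pow 2).mul (hv.continuousAt.tendsto.mono_left nhdsWithin_le_nhds)
      simpa using this
    have h2 : Tendsto (fun s : ℂ => q * ((cexp ((s - x0) * I) - 1) / (s - x0)) ^ 2 *
        cexp (-((s - x0) * I))) (𝓝[≠] (x0 : ℂ)) (𝓝 (q * I ^ 2 * 1)) := by
      refine ((hE.pow 2).const_mul q).mul ?_
      have : Continuous fun s : ℂ => cexp (-((s - x0) * I)) := by fun_prop
      have h3 := this.tendsto (x0 : ℂ)
      simp only [sub_self, zero_mul, neg_zero, Complex.exp_zero] at h3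
      exact h3.mono_left nhdsWithin_le_nhds
    have h3 : (fun s : ℂ => (k s / (s - x0)) ^ 2 * v s) =ᶠ[𝓝[≠] (x0 : ℂ)]
        (fun s : ℂ => q * ((cexp ((s - x0) * I) - 1) / (s - x0)) ^ 2 * cexp (-((s - x0) * I))) := by
      filter_upwards [hPk.filter_mono nhdsWithin_le_nhds] with s hs'
      have h4 := hPs (s - x0)
      rw [add_sub_cancel, hs'] at h4
      have gen : ∀ a b c d : ℂ, a * b * c / d = a * (b / d) * c := by
        intro a b c d
        ring
      calc (k s / (s - x0)) ^ 2 * v s = (k s ^ 2 * v s) / (s - x0) ^ 2 := by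
            rw [div_pow]; exact div_mul_eq_mul_div _ _ _
        _ = _ := by rw [h4, div_pow]; exact gen _ _ _ _
    have h4 := tendsto_nhds_unique (h1.congr' h3) h2
    rw [I_sq] at h4
    apply hq0
    linear_combination h4
  -- the real function
  let r : ℝ → ℝ := fun x => (I * Wr Z W x).re
  have hr : ∀ x : ℝ, (r x : ℂ) = I * Wr Z W x := by
    intro x
    have h1 := sym_wr hs x
    rw [conj_ofReal] at h1
    have h2 : (starRingEnd ℂ) (I * Wr Z W x) = I * Wr Z W x := by
      rw [map_mul, conj_I]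
      linear_combination -I * h1
    exact (conj_eq_iff_re.1 h2)
  have hrc : Continuous r := by
    have : Continuous (Wr Z W) := (wr_diff hZ hW).continuous
    exact continuous_re.comp (continuous_const.mul (this.comp continuous_ofReal))
  have hrp : ∀ x, r (x + 2 * Real.pi) = r x := by
    intro x
    have h1 : (r (x + 2 * Real.pi) : ℂ) = r x := by
      rw [hr, hr]
      push_cast
      rw [pWr x]
    exact_mod_cast h1
  have hLW : Tendsto (fun s : ℂ => Wr Z W s / (s - x0) ^ 3) (𝓝[≠] (x0 : ℂ))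
      (𝓝 (deriv k x0 ^ 3 * w x0)) := by
    have h1 := (hL.pow 3).mul (hw.continuousAt.tendsto.mono_left nhdsWithin_le_nhds)
    refine h1.congr' ?_
    filter_upwards [hWk.filter_mono nhdsWithin_le_nhds] with s hs'
    rw [hs', div_pow]
    exact div_mul_eq_mul_div _ _ _
  have hofR : Tendsto (fun x : ℝ => (x : ℂ)) (𝓝[≠] x0) (𝓝[≠] (x0 : ℂ)) := by
    apply tendsto_nhdsWithin_of_tendsto_nhds_of_eventually_within
    · exact (continuous_ofReal.tendsto x0).mono_left nhdsWithin_le_nhds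
    · filter_upwards [self_mem_nhdsWithin] with x hx
      simpa using hx
  set ℓ : ℝ := (I * (deriv k x0 ^ 3 * w x0)).re with hℓ
  have hLr' : Tendsto (fun x : ℝ => ((r x / (x - x0) ^ 3 : ℝ) : ℂ)) (𝓝[≠] x0)
      (𝓝 (I * (deriv k x0 ^ 3 * w x0))) := by
    have h1 := (hLW.comp hofR).const_mul I
    refine h1.congr fun x => ?_
    simp only [Function.comp]
    push_cast
    rw [hr]
    ring
  have hLr : Tendsto (fun x : ℝ => r x / (x - x0) ^ 3) (𝓝[≠] x0) (𝓝 ℓ) := by
    have h1 := (continuous_re.tendsto _).comp hLr'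
    refine h1.congr fun x => ?_
    simp only [Function.comp, ofReal_re]
  have hℓ0 : ℓ ≠ 0 := by
    have him : (I * (deriv k x0 ^ 3 * w x0)).im = 0 := by
      have h1 := (continuous_im.tendsto _).comp hLr'
      have h2 : Tendsto (fun _ : ℝ => (0 : ℝ)) (𝓝[≠] x0) (𝓝 (I * (deriv k x0 ^ 3 * w x0)).im) := by
        refine h1.congr fun x => ?_
        simp only [Function.comp, ofReal_im]
      exact (tendsto_nhds_unique h2 tendsto_const_nhds)
    intro hcon
    have h1 : I * (deriv k x0 ^ 3 * w x0) = 0 := Complex.ext (by rw [← hℓ, hcon]; rfl) him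
    exact mul_ne_zero I_ne_zero (mul_ne_zero (pow_ne_zero 3 hk1) hw0) h1
  -- same sign on both sides
  have hsgn : ∀ᶠ x in 𝓝[≠] x0, 0 < ℓ * (r x / (x - x0) ^ 3) := by
    have h1 : Tendsto (fun x => ℓ * (r x / (x - x0) ^ 3)) (𝓝[≠] x0) (𝓝 (ℓ * ℓ)) :=
      hLr.const_mul ℓ
    exact h1.eventually_const_lt (mul_self_pos.2 hℓ0)
  rw [eventually_nhdsWithin_iff, Metric.eventually_nhds_iff] at hsgn
  obtain ⟨ε, hε, hball⟩ := hsgn
  set h : ℝ := min (ε / 2) (Real.pi / 2) with hh
  have hpi := Real.pi_pos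
  have hh0 : 0 < h := lt_min (by linarith) (by linarith)
  have hhε : h < ε := lt_of_le_of_lt (min_le_left _ _) (by linarith)
  have hhpi : h ≤ Real.pi / 2 := min_le_right _ _
  have hp1 : 0 < ℓ * r (x0 + h) := by
    have h1 := hball (y := x0 + h) (by rw [Real.dist_eq, add_sub_cancel_left, abs_of_pos hh0]; exact hhε)
      (by simpa using hh0.ne')
    rw [add_sub_cancel_left] at h1
    have h2 := mul_pos h1 (show 0 < h ^ 3 by positivity)
    have h3 : ℓ * (r (x0 + h) / h ^ 3) * h ^ 3 = ℓ * r (x0 + h) := by field_simp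
    rwa [h3] at h2
  have hp2 : ℓ * r (x0 + 2 * Real.pi - h) < 0 := by
    have h1 := hball (y := x0 - h) (by
      rw [Real.dist_eq, show x0 - h - x0 = -h by ring, abs_neg, abs_of_pos hh0]; exact hhε)
      (by simpa using hh0.ne')
    rw [show x0 - h - x0 = -h by ring] at h1
    have h2 := mul_pos h1 (show 0 < h ^ 3 by positivity)
    have h3 : ℓ * (r (x0 - h) / (-h) ^ 3) * h ^ 3 = -(ℓ * r (x0 - h)) := by field_simp
    rw [h3] at h2
    have h4 : r (x0 + 2 * Real.pi - h) = r (x0 - h) := by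
      rw [← hrp (x0 - h)]
      congr 1
      ring
    rw [h4]
    linarith
  have hle : x0 + h ≤ x0 + 2 * Real.pi - h := by linarith
  have hivt := intermediate_value_Icc' hle (f := fun x => ℓ * r x)
    (continuous_const.mul hrc).continuousOn
  obtain ⟨x, hx, hx0⟩ := hivt ⟨hp2.le, hp1.le⟩
  have hx1 : r x = 0 := (mul_eq_zero.1 hx0).resolve_left hℓ0
  have hx2 : Wr Z W x = 0 := by
    have h1 := hr x
    rw [hx1, ofReal_zero] at h1
    exact (mul_eq_zero.1 h1.symm).resolve_left I_ne_zero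
  obtain ⟨n, hn⟩ := hzero x hx2
  have hn' : x = x0 + n * (2 * Real.pi) := by exact_mod_cast hn
  have h1 : 0 < (n : ℝ) * (2 * Real.pi) := by linarith [hx.1]
  have h2 : (n : ℝ) * (2 * Real.pi) < 1 * (2 * Real.pi) := by linarith [hx.2]
  have h3 : (0 : ℝ) < n := by
    by_contra hc
    push Not at hc
    have : (n : ℝ) * (2 * Real.pi) ≤ 0 := mul_nonpos_of_nonpos_of_nonneg hc (by linarith)
    linarith
  have h4 : (n : ℝ) < 1 := lt_of_mul_lt_mul_right h2 (by linarith)
  have h5 : (0 : ℤ) < n := by exact_mod_cast h3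
  have h6 : n < (1 : ℤ) := by exact_mod_cast h4
  omega

/-- **Regular entire curves of order less than one have constant affine curvature.** -/
theorem core {ρ : ℝ} (hρ : 0 ≤ ρ) (hρ1 : ρ < 1) (hZ : Differentiable ℂ Z) (pZ : Per Z)
    (gZ : Gr ρ Z) (hs : ∀ t, W t = (starRingEnd ℂ) (Z ((starRingEnd ℂ) t)))
    (hne : ∀ t, ¬ ∀ᶠ s in 𝓝 t, Wr Z W s = 0) (hR : ∀ t, Reg Z W t) :
    (∀ t, Mi Z W t = 0) ∨ ∃ m0 : ℂ, ∀ t, Wr Z W t ≠ 0 ∧ Mi Z W t ^ 3 = m0 * Wr Z W t ^ 8 := by
  -- `W`
  have hW : Differentiable ℂ W := by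
    have h1 : W = ((starRingEnd ℂ) ∘ Z ∘ (starRingEnd ℂ)) := funext hs
    rw [h1]
    intro t
    exact differentiableAt_conj_conj_iff.2 (hZ _)
  have pW : Per W := by
    intro t
    rw [hs, hs, map_add, map_mul, conj_ofReal, map_ofNat, pZ]
  have gW : Gr ρ W := by
    obtain ⟨A, hA, h⟩ := gZ
    refine ⟨A, hA, fun t => ?_⟩
    rw [hs, RCLike.norm_conj]
    have := h ((starRingEnd ℂ) t)
    rwa [conj_im, abs_neg] at this
  -- the derivatives
  set A : ℂ → ℂ := deriv Z with hAdef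
  set B : ℂ → ℂ := deriv W with hBdef
  set D : ℂ → ℂ := Wr Z W with hDdef
  have hA : Differentiable ℂ A := diff_deriv hZ
  have hB : Differentiable ℂ B := diff_deriv hW
  have hA1 := diff_deriv hA
  have hB1 := diff_deriv hB
  have hD : Differentiable ℂ D := wr_diff hZ hW
  have pA : Per A := pZ.deriv
  have pB : Per B := pW.deriv
  have gA : Gr ρ A := gZ.deriv hρ hZ
  have gB : Gr ρ B := gW.deriv hρ hW
  have hDf : D = fun t => A t * deriv B t - deriv A t * B t := rfl
  have pD : Per D := by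
    intro t
    rw [hDf]
    simp only
    rw [pA t, pB t, pA.deriv t, pB.deriv t]
  have gD : Gr ρ D := (gA.mul (gB.deriv hρ hB)).sub hρ ((gA.deriv hρ hA).mul gB)
  have nD : ∃ t, D t ≠ 0 := by
    by_contra hcon
    push Not at hcon
    exact hne 0 (Eventually.of_forall hcon)
  have nA : ∃ t, A t ≠ 0 := by
    by_contra hcon
    push Not at hcon
    obtain ⟨t, ht⟩ := nD
    apply ht
    have h1 : A = fun _ => 0 := funext hcon
    rw [hDf, h1]
    simp
  obtain ⟨P, hP, hPM, hloc⟩ := quad hZ hW hne hR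
  have hD2 : ∀ t, AnalyticAt ℂ (fun s => D s ^ 2) t := fun t => (hD.analyticAt t).fun_pow 2
  have hD2ne : ∀ t, ¬ ∀ᶠ s in 𝓝 t, D s ^ 2 = 0 := fun t hcon => hne t (by
    filter_upwards [hcon] with s hs using pow_eq_zero_iff two_ne_zero |>.1 hs)
  have pMi : Per (Mi Z W) := by
    intro t
    have d0 := pD t
    have d1 := pD.deriv t
    have d2 := pD.deriv.deriv t
    have a1 := pA.deriv t
    have a2 := pA.deriv.deriv t
    have b1 := pB.deriv t
    have b2 := pB.deriv.deriv t
    show 5 / 9 * (deriv D (t + 2 * Real.pi)) ^ 2 - 1 / 3 * deriv (deriv D) (t + 2 * Real.pi) *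
      D (t + 2 * Real.pi) - (deriv A (t + 2 * Real.pi) * deriv (deriv B) (t + 2 * Real.pi) -
      deriv (deriv A) (t + 2 * Real.pi) * deriv B (t + 2 * Real.pi)) * D (t + 2 * Real.pi) = _
    rw [d0, d1, d2, a1, a2, b1, b2]
    rfl
  have pP : Per P := by
    intro t
    refine eq_of_mul (Q1 := fun t => P (t + 2 * Real.pi)) (Q2 := P) (G := fun s => D s ^ 2)
      (hP.continuous.comp (continuous_id.add continuous_const)) hP.continuous (hD2 t) (hD2ne t) ?_
    intro s
    have h1 := hPM (s + 2 * Real.pi)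
    rw [pMi s, hPM s] at h1
    have h2 : Wr Z W (s + 2 * Real.pi) = Wr Z W s := pD s
    rw [h2] at h1
    exact h1.symm
  have sP : ∀ t, P t = (starRingEnd ℂ) (P ((starRingEnd ℂ) t)) := by
    intro t
    have hc : Continuous fun t => (starRingEnd ℂ) (P ((starRingEnd ℂ) t)) :=
      continuous_conj.comp (hP.continuous.comp continuous_conj)
    refine eq_of_mul (Q1 := P) (Q2 := fun t => (starRingEnd ℂ) (P ((starRingEnd ℂ) t))) (G := fun s => D s ^ 2)
      hP.continuous hc (hD2 t) (hD2ne t) ?_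
    intro s
    have h1 := sym_mi hs s
    rw [hPM, hPM ((starRingEnd ℂ) s), map_mul, map_pow] at h1
    have h2 := sym_wr hs s
    have h3 : (starRingEnd ℂ) (Wr Z W ((starRingEnd ℂ) s)) ^ 2 = Wr Z W s ^ 2 := by rw [h2]; simp
    rw [h3] at h1
    exact h1
  have hd1 : ∀ t, deriv D t = A t * deriv (deriv B) t - deriv (deriv A) t * B t :=
    fun t => wr_deriv hZ hW t
  have hrel : ∀ t, A t ≠ 0 → D t ≠ 0 →
      P t = deriv (bet A D) t + bet A D t ^ 2 - deriv D t / D t / 3 * bet A D t := by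
    intro t hAt hDt
    have h1 : HasDerivAt (bet A D) ((deriv (deriv A) t * A t - deriv A t * deriv A t) / A t ^ 2 -
        (deriv (deriv D) t * D t - deriv D t * deriv D t) / D t ^ 2 / 3) t := by
      have e1 := (hA1 t).hasDerivAt.fun_div (hA t).hasDerivAt hAt
      have e2 := ((diff_deriv hD) t).hasDerivAt.fun_div (hD t).hasDerivAt hDt
      exact e1.fun_sub (e2.div_const 3)
    rw [h1.deriv]
    have h2 := rel_alg (A := A t) (A1 := deriv A t) (A2 := deriv (deriv A) t) (B := B t)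
      (B1 := deriv B t) (B2 := deriv (deriv B) t) (D := D t) (D1 := deriv D t)
      (D2 := deriv (deriv D) t) (P := P t) hAt hDt rfl (hd1 t) (hPM t)
    rw [h2]
    unfold bet
    field_simp
  obtain ⟨a, b, c, habc⟩ := P_three hρ hρ1 hA hD hP pA pD pP gA gD nA nD hrel
  by_cases hP0 : ∀ t, P t = 0
  · left
    intro t
    rw [hPM, hP0, zero_mul]
  right
  push Not at hP0
  have hz : ∀ t, D t ≠ 0 := no_zero hZ hW pD hs hloc habc hP0
  -- `D` is constant
  have he : Differentiable ℂ fun t => deriv D t / D t := fun t =>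
    ((diff_deriv hD) t).fun_div (hD t) (hz t)
  obtain ⟨b0, hb0⟩ := log_const hρ hρ1 hD pD gD nD he (fun t => by
    show deriv D (t + 2 * Real.pi) / D (t + 2 * Real.pi) = deriv D t / D t
    rw [pD.deriv t, pD t]) (K := 0) (fun t _ _ => by simp)
  have hD1 : ∀ t, deriv D t = b0 * D t := by
    intro t
    have := hb0 t
    rw [div_eq_iff (hz t)] at this
    exact this
  have hDexp : ∀ t, D t = D 0 * cexp (b0 * t) := by
    intro t
    have h1 : ∀ s, HasDerivAt (fun s => D s * cexp (-(b0 * s))) 0 s := by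
      intro s
      have e1 : HasDerivAt (fun s : ℂ => -(b0 * s)) (-(b0 * 1)) s :=
        ((hasDerivAt_id s).const_mul b0).fun_neg
      have e2 := (hD s).hasDerivAt.fun_mul e1.cexp
      refine e2.congr_deriv ?_
      rw [hD1 s]
      ring
    have h2 : (fun s => D s * cexp (-(b0 * s))) t = (fun s => D s * cexp (-(b0 * s))) 0 :=
      is_const_of_deriv_eq_zero (fun s => (h1 s).differentiableAt) (fun s => (h1 s).deriv) t 0
    simp only [mul_zero, neg_zero, Complex.exp_zero, mul_one] at h2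
    rw [← h2, mul_assoc, ← Complex.exp_add, neg_add_cancel, Complex.exp_zero, mul_one]
  have hb0r : (starRingEnd ℂ) b0 = b0 := by
    have h1 := sym_wr hs 0
    have h2 := deriv_ncj (sym_wr hs) 0
    rw [map_zero] at h1 h2
    have h3 : deriv (Wr Z W) 0 = b0 * Wr Z W 0 := hD1 0
    have h4 : Wr Z W 0 ≠ 0 := hz 0
    rw [h3, map_mul] at h2
    have h5 : ((starRingEnd ℂ) b0 - b0) * Wr Z W 0 = 0 := by
      have h6 : (starRingEnd ℂ) (Wr Z W 0) = -Wr Z W 0 := by linear_combination h1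
      rw [h6] at h2
      linear_combination -h2
    exact sub_eq_zero.1 ((mul_eq_zero.1 h5).resolve_right h4)
  have hb00 : b0 = 0 := by
    have h1 : cexp (b0 * (2 * Real.pi)) = 1 := by
      have h2 := hDexp (2 * Real.pi)
      have h3 := pD 0
      rw [zero_add] at h3
      rw [h3] at h2
      have h4 : D 0 * (cexp (b0 * (2 * Real.pi)) - 1) = 0 := by linear_combination -h2
      exact sub_eq_zero.1 ((mul_eq_zero.1 h4).resolve_left (hz 0))
    obtain ⟨y, hy⟩ : ∃ y : ℝ, b0 = y := ⟨b0.re, (conj_eq_iff_re.1 hb0r).symm⟩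
    rw [hy] at h1 ⊢
    have h2 : Real.exp (y * (2 * Real.pi)) = 1 := by exact_mod_cast h1
    rw [Real.exp_eq_one_iff] at h2
    have h3 : y = 0 := (mul_eq_zero.1 h2).resolve_right (by positivity)
    rw [h3, ofReal_zero]
  have hD0 : ∀ t, D t = D 0 := by
    intro t
    rw [hDexp t, hb00]
    simp
  have hdD : ∀ t, deriv D t = 0 := fun t => by rw [hD1, hb00, zero_mul]
  have hddD : ∀ t, deriv (deriv D) t = 0 := by
    intro t
    have : deriv D = fun _ => 0 := funext hdD
    rw [this]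
    simp
  have hMi2 : ∀ t, -(deriv A t * deriv (deriv B) t - deriv (deriv A) t * deriv B t) = P t * D t := by
    intro t
    have h1 : 5 / 9 * (deriv D t) ^ 2 - 1 / 3 * deriv (deriv D) t * D t
      - (deriv A t * deriv (deriv B) t - deriv (deriv A) t * deriv B t) * D t = P t * D t ^ 2 :=
      hPM t
    rw [hdD, hddD] at h1
    apply mul_right_cancel₀ (hz t)
    linear_combination h1
  have eA : ∀ t, deriv (deriv A) t = P t * A t := by
    intro t
    have h1 := hd1 t
    rw [hdD] at h1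
    have h2 := hMi2 t
    have h3 : D t = A t * deriv B t - deriv A t * B t := rfl
    apply mul_right_cancel₀ (hz t)
    linear_combination deriv (deriv A) t * h3 + A t * h2 - deriv A t * h1
  have eB : ∀ t, deriv (deriv B) t = P t * B t := by
    intro t
    have h1 := hd1 t
    rw [hdD] at h1
    have h2 := hMi2 t
    have h3 : D t = A t * deriv B t - deriv A t * B t := rfl
    apply mul_right_cancel₀ (hz t)
    linear_combination deriv (deriv B) t * h3 + B t * h2 - deriv B t * h1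
  -- reality of the coefficients
  have hca : c = (starRingEnd ℂ) a := by
    have hreal : ∀ x : ℝ, (starRingEnd ℂ) (P x) = P x := by
      intro x
      have := sP x
      rw [conj_ofReal] at this
      exact this.symm
    have e0 : P ((0 : ℝ) : ℂ) = a + b + c := by rw [habc]; simp
    have e1 : P ((Real.pi : ℝ) : ℂ) = -a + b - c := by
      rw [habc, Complex.exp_neg, Complex.exp_pi_mul_I]
      norm_num
      ring
    have e2 : P (((Real.pi / 2 : ℝ)) : ℂ) = -I * a + b + I * c := by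
      rw [habc]
      have h1 : (((Real.pi / 2 : ℝ)) : ℂ) * I = Real.pi / 2 * I := by push_cast; ring
      rw [h1, Complex.exp_neg, Complex.exp_pi_div_two_mul_I, inv_I]
      ring
    have e3 : P (((-(Real.pi / 2) : ℝ)) : ℂ) = I * a + b - I * c := by
      rw [habc]
      have h1 : (((-(Real.pi / 2) : ℝ)) : ℂ) * I = -(Real.pi / 2 * I) := by push_cast; ring
      rw [h1, neg_neg, Complex.exp_neg, Complex.exp_pi_div_two_mul_I, inv_I]
      ring
    have r0 := hreal 0
    have r1 := hreal Real.pi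
    have r2 := hreal (Real.pi / 2)
    have r3 := hreal (-(Real.pi / 2))
    rw [e0] at r0
    rw [e1] at r1
    rw [e2] at r2
    rw [e3] at r3
    simp only [map_add, map_sub, map_mul, map_neg, conj_I] at r0 r1 r2 r3
    have s1 : (starRingEnd ℂ) a + (starRingEnd ℂ) c = a + c := by linear_combination (r0 - r1) / 2
    have s2 : (starRingEnd ℂ) a - (starRingEnd ℂ) c = c - a := by
      have h1 : I * ((starRingEnd ℂ) a - (starRingEnd ℂ) c) = I * (c - a) := by linear_combination (r2 - r3) / 2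
      exact mul_left_cancel₀ I_ne_zero h1
    linear_combination -(s1 + s2) / 2
  have hac : ‖a‖ = ‖c‖ := by rw [hca, RCLike.norm_conj]
  have ha0 : a = 0 := by
    by_contra ha
    have := ince hA hB pA pB hac ha (b := b) (fun t => by rw [eA, habc]) (fun t => by rw [eB, habc]) 0
    exact hz 0 this
  have hc0 : c = 0 := by rw [hca, ha0, map_zero]
  refine ⟨b ^ 3 / D 0 ^ 2, fun t => ⟨hz t, ?_⟩⟩
  have h1 : P t = b := by rw [habc, ha0, hc0]; ring
  rw [hPM t, h1]
  show (b * D t ^ 2) ^ 3 = b ^ 3 / D 0 ^ 2 * D t ^ 8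
  have h3 := hz 0
  rw [hD0 t]
  field_simp

end

end Pool.Agent.W743.BE
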