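import Pool.Agent.W743.BE.Core
import Pool.Agent.H719R4.FX.Fin3
import Pool.Agent.H719R4.FX.TMP
import Pool.Agent.H719R4.FX.TMO
import Pool.Agent.H719R4.FX.CQU
import Pool.Agent.H719R4.FX.CEL

/-! Assembly: ovals parametrised by entire functions of order less than one -/

open Complex Set Filter Topology H719FX H738CZ

namespace Pool.Agent.W743.BE

/-- Main theorem, in the notation of the starting files. -/
theorem main (hFLZ : StFLZ) : ∀ (γ : ℝ → ℂ) (ρ : ℝ → ℝ), IsOval γ ρ → ∀ (K : ℝ → ℝ → ℝ) (ε : ℝ),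
    0 < ε → AnalyticOnNhd ℝ (Function.uncurry K) {z | |z.2 - sup (γ z.1) z.1| < ε} →
  (∀ s : ℝ, ∃ εs > 0, ∀ δ : ℝ, 0 < δ → δ < εs →
    K (s + δ) (sup (γ s) (s + δ)) = K (s - δ) (sup (γ s) (s - δ))) →
  (¬ ∃ c, ∀ φ p : ℝ, |p - sup (γ φ) φ| < ε → K φ p = c) →
  ∀ (Z : ℂ → ℂ) (σ : ℝ), 0 ≤ σ → σ < 1 → Differentiable ℂ Z → Per Z → Gr σ Z →
  ∀ (θ : ℝ → ℝ), Continuous θ → Function.Surjective θ → (∀ t : ℝ, γ (θ t) = Z t) →
    ∃ (c : ℂ) (a b d : ℝ), 0 < a ∧ 0 < a * d - b ^ 2 ∧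
      Set.range γ = {x : ℂ | a * (x.re - c.re) ^ 2 + 2 * b * (x.re - c.re) * (x.im - c.im)
        + d * (x.im - c.im) ^ 2 = 1} := by
  intro γ ρ hOv K ε hε hK hsym hnc Z σ hσ hσ1 hZd pZ gZ θ hθ hθs hγ
  let W : ℂ → ℂ := fun t => (starRingEnd ℂ) (Z ((starRingEnd ℂ) t))
  have hs : ∀ t, W t = (starRingEnd ℂ) (Z ((starRingEnd ℂ) t)) := fun t => rfl
  have hdW : Differentiable ℂ W := by
    have h1 : W = ((starRingEnd ℂ) ∘ Z ∘ (starRingEnd ℂ)) := rfl
    rw [h1]
    intro t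
    exact differentiableAt_conj_conj_iff.2 (hZd _)
  have hZ : ∀ t : ℝ, Z t = γ (θ t) := fun t => (hγ t).symm
  have hW : ∀ t : ℝ, W t = (starRingEnd ℂ) (γ (θ t)) := by
    intro t
    rw [hs, Complex.conj_ofReal, hZ]
  -- the curve is not constant
  obtain ⟨s1, t1, hst⟩ : ∃ s1 t1 : ℝ, γ (θ s1) ≠ γ (θ t1) := by
    by_contra hcon
    push Not at hcon
    have h1 : γ = fun _ => γ 0 := by
      funext s
      obtain ⟨x, hx⟩ := hθs s
      obtain ⟨y, hy⟩ := hθs 0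
      have := hcon x y
      rw [hx, hy] at this
      exact this
    have h2 := hOv.der 0
    have h3 : HasDerivAt γ 0 0 := by
      rw [h1]
      exact hasDerivAt_const (0 : ℝ) (γ 0)
    have h4 := h2.unique h3
    have h5 : (ρ 0 : ℂ) ≠ 0 := by exact_mod_cast (hOv.pos 0).ne'
    exact (mul_ne_zero (mul_ne_zero h5 I_ne_zero) (Complex.exp_ne_zero _)) h4
  have hmain : ∀ t0 : ℂ, (¬ ∀ᶠ t in 𝓝 t0, Wr Z W t = 0) ∧ Reg Z W t0 := by
    intro t0
    obtain ⟨r, hr⟩ : ∃ r : ℝ, r = |s1| + |t1| + ‖t0‖ + 1 := ⟨_, rfl⟩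
    have a1 := abs_nonneg s1
    have a2 := abs_nonneg t1
    have a3 := norm_nonneg t0
    have hmem : ∀ x : ℝ, |x| < r → x ∈ Ioo (-r) r := by
      intro x hx
      exact abs_lt.mp hx
    refine hFLZ γ ρ hOv K ε hε hK hsym hnc 0 (fun _ => 0) (fun _ => r) (fun _ => Z)
      (fun _ => W) ⟨fun i _ => hZd.differentiableOn, fun i _ => hdW.differentiableOn,
        fun i hi => absurd hi (Nat.not_lt_zero i), fun i hi => absurd hi (Nat.not_lt_zero i),
        fun i hi => absurd hi (Nat.not_lt_zero i)⟩ θ (-r) r hθ.continuousOn ?_ ?_ t0 ?_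
    · intro t ht
      refine ⟨?_, hZ t, hW t⟩
      rw [mem_ball_zero_iff, Complex.norm_real, Real.norm_eq_abs]
      exact abs_lt.mpr ht
    · exact ⟨s1, hmem s1 (by linarith), t1, hmem t1 (by linarith), hst⟩
    · rw [mem_ball_zero_iff]
      linarith
  have hWr : ∃ s, Wr Z W s ≠ 0 := by
    by_contra hcon
    push Not at hcon
    exact (hmain 0).1 (Filter.Eventually.of_forall hcon)
  rcases core hσ hσ1 hZd pZ gZ hs (fun t => (hmain t).1) (fun t => (hmain t).2) with hMi | ⟨m0, hm0⟩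
  · exfalso
    obtain ⟨A, B, a, b, c1, c2, hBA, hid⟩ := tTMP _ _ hZd hdW hWr hMi
    apply tTMO γ ρ hOv A B a b c1 c2 hBA
    intro φ
    obtain ⟨t, rfl⟩ := hθs φ
    have := hid t
    rw [hZ, hW] at this
    exact this
  · obtain ⟨q0, q1, q2, q3, q4, q5, hq, hev⟩ := tCQU Z W 0 m0 1 one_pos hZd.differentiableOn
      hdW.differentiableOn (fun t _ => hm0 t)
    refine tCEL γ ρ hOv q0 q1 q2 q3 q4 q5 hq ?_
    have hall : ∀ t : ℂ, q0 * Z t ^ 2 + q1 * Z t * W t + q2 * W t ^ 2 + q3 * Z t + q4 * W t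
        + q5 = 0 := by
      have hd : Differentiable ℂ (fun t => q0 * Z t ^ 2 + q1 * Z t * W t + q2 * W t ^ 2 +
          q3 * Z t + q4 * W t + q5) := by fun_prop
      have ha : AnalyticOnNhd ℂ (fun t => q0 * Z t ^ 2 + q1 * Z t * W t + q2 * W t ^ 2 +
          q3 * Z t + q4 * W t + q5) univ := fun z _ => hd.analyticAt z
      have h0 := ha.eqOn_zero_of_preconnected_of_eventuallyEq_zero isPreconnected_univ
        (mem_univ 0) (by filter_upwards [hev] with t ht using ht)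
      exact fun t => h0 (mem_univ t)
    intro φ
    obtain ⟨t, rfl⟩ := hθs φ
    have := hall t
    rw [hZ, hW] at this
    exact this

/-- growth in the variable `w = e^{it}` -/
theorem of_punctured {G : ℂ → ℂ} {A σ : ℝ} (hσ : 0 ≤ σ) (hG : DifferentiableOn ℂ G {0}ᶜ)
    (hb : ∀ w : ℂ, w ≠ 0 → ‖G w‖ ≤ Real.exp (A * (‖w‖ ^ σ + ‖w‖ ^ (-σ)))) :
    Differentiable ℂ (fun t : ℂ => G (cexp (t * I))) ∧ Per (fun t : ℂ => G (cexp (t * I))) ∧
      Gr σ (fun t : ℂ => G (cexp (t * I))) := by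
  refine ⟨?_, ?_, ?_⟩
  · intro t
    have h1 : DifferentiableAt ℂ G (cexp (t * I)) :=
      hG.differentiableAt (isOpen_compl_singleton.mem_nhds (Complex.exp_ne_zero _))
    exact h1.comp t (by fun_prop)
  · intro t
    simp only
    congr 1
    have : (t + 2 * Real.pi) * I = t * I + 2 * Real.pi * I := by ring
    rw [this]
    exact Complex.exp_periodic _
  · refine ⟨2 * |A|, by positivity, fun t => ?_⟩
    refine (hb _ (Complex.exp_ne_zero _)).trans (Real.exp_le_exp.2 ?_)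
    have hn : ‖cexp (t * I)‖ = Real.exp (-t.im) := by
      rw [Complex.norm_exp]
      simp
    rw [hn, ← Real.exp_mul, ← Real.exp_mul]
    have h1 : Real.exp (-t.im * σ) ≤ Real.exp (σ * |t.im|) := by
      apply Real.exp_le_exp.2
      have := neg_le_abs t.im
      nlinarith
    have h2 : Real.exp (-t.im * -σ) ≤ Real.exp (σ * |t.im|) := by
      apply Real.exp_le_exp.2
      have := le_abs_self t.im
      nlinarith
    have h3 : 0 ≤ Real.exp (-t.im * σ) + Real.exp (-t.im * -σ) := by positivity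
    calc A * (Real.exp (-t.im * σ) + Real.exp (-t.im * -σ))
        ≤ |A| * (Real.exp (-t.im * σ) + Real.exp (-t.im * -σ)) :=
          mul_le_mul_of_nonneg_right (le_abs_self A) h3
      _ ≤ |A| * (Real.exp (σ * |t.im|) + Real.exp (σ * |t.im|)) := by gcongr
      _ = _ := by ring

end Pool.Agent.W743.BE
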