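import Mathlib

/-! Fourier coefficients of entire periodic functions -/

open Complex Set Filter Topology MeasureTheory

namespace Pool.Agent.W743.BE

/-- `2π`-periodic -/
def Per (F : ℂ → ℂ) : Prop := ∀ t, F (t + 2 * Real.pi) = F t

/-- Fourier coefficient (times `2π`) -/
noncomputable def cf (F : ℂ → ℂ) (n : ℤ) : ℂ :=
  ∫ x in (0 : ℝ)..(2 * Real.pi), F x * cexp (-(n * x * I))

lemma shift {G : ℂ → ℂ} (hG : Differentiable ℂ G) (hp : Per G) (y : ℝ) :
    ∫ x in (0 : ℝ)..(2 * Real.pi), G (x + y * I) = ∫ x in (0 : ℝ)..(2 * Real.pi), G x := by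
  have h := Complex.integral_boundary_rect_eq_zero_of_differentiableOn G 0
    ((2 * Real.pi : ℝ) + y * I) hG.differentiableOn
  simp only [zero_re, zero_im, add_re, add_im, ofReal_re, ofReal_im, mul_re, mul_im, I_re, I_im,
    mul_zero, mul_one, sub_zero, zero_add, add_zero, ofReal_zero, zero_mul] at h
  have h2 : ∀ s : ℝ, G (((2 * Real.pi : ℝ) : ℂ) + s * I) = G (s * I) := by
    intro s
    rw [← hp (s * I)]
    congr 1
    push_cast
    ring
  simp only [h2] at h
  linear_combination -h

lemma Per.mul_exp {F : ℂ → ℂ} (hp : Per F) (n : ℤ) : Per fun t => F t * cexp (-(n * t * I)) := by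
  intro t
  simp only
  rw [hp t]
  congr 1
  have : -((n : ℂ) * (t + 2 * Real.pi) * I) = -(n * t * I) + ((-n : ℤ) : ℂ) * (2 * Real.pi * I) := by
    push_cast
    ring
  rw [this]
  exact Complex.exp_periodic.int_mul (-n) _

lemma cf_shift {F : ℂ → ℂ} (hF : Differentiable ℂ F) (hp : Per F) (n : ℤ) (y : ℝ) :
    cf F n = ∫ x in (0 : ℝ)..(2 * Real.pi), F (x + y * I) * cexp (-(n * (x + y * I) * I)) :=
  (shift (G := fun t => F t * cexp (-(n * t * I))) (by fun_prop) (hp.mul_exp n) y).symm

lemma eq_zero_of_real {F : ℂ → ℂ} (hF : Differentiable ℂ F) (h : ∀ x : ℝ, F x = 0) (t : ℂ) :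
    F t = 0 := by
  have ha : AnalyticOnNhd ℂ F univ := fun z _ => hF.analyticAt z
  have h0 : ∃ᶠ z in 𝓝[≠] (0 : ℂ), F z = 0 := by
    have h1 : Tendsto (fun x : ℝ => (x : ℂ)) (𝓝[≠] 0) (𝓝[≠] (0 : ℂ)) := by
      apply tendsto_nhdsWithin_of_tendsto_nhds_of_eventually_within
      · have : Tendsto (fun x : ℝ => (x : ℂ)) (𝓝 0) (𝓝 ((0 : ℝ) : ℂ)) :=
          Complex.continuous_ofReal.tendsto 0
        rw [ofReal_zero] at this
        exact this.mono_left nhdsWithin_le_nhds
      · filter_upwards [self_mem_nhdsWithin] with x hx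
        simpa using hx
    exact h1.frequently (Eventually.of_forall fun x => h x).frequently
  have := ha.eqOn_zero_of_preconnected_of_frequently_eq_zero isPreconnected_univ (mem_univ 0) h0
  exact this (mem_univ t)

lemma eq_zero_of_cf {F : ℂ → ℂ} (hF : Differentiable ℂ F) (hp : Per F) (h : ∀ n, cf F n = 0)
    (t : ℂ) : F t = 0 := by
  refine eq_zero_of_real hF ?_ t
  have : Fact (0 < 2 * Real.pi) := ⟨by positivity⟩
  have hper : Function.Periodic (fun x : ℝ => F x) (2 * Real.pi) := by
    intro x
    have := hp x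
    simp only
    rw [← this]
    push_cast
    rfl
  have hc : Continuous (fun x : ℝ => F x) := hF.continuous.comp continuous_ofReal
  let G : C(AddCircle (2 * Real.pi), ℂ) := ⟨hper.lift, continuous_coinduced_dom.mpr hc⟩
  have hG : ∀ x : ℝ, G (x : AddCircle (2 * Real.pi)) = F x := fun x => hper.lift_coe x
  have hcoef : ∀ n, fourierCoeff (G : AddCircle (2 * Real.pi) → ℂ) n = 0 := by
    intro n
    rw [fourierCoeff_eq_intervalIntegral _ _ 0]
    have h1 : ∫ x in (0 : ℝ)..(0 + 2 * Real.pi), fourier (-n) (x : AddCircle (2 * Real.pi)) •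
        G (x : AddCircle (2 * Real.pi)) = cf F n := by
      rw [zero_add]
      unfold cf
      refine intervalIntegral.integral_congr fun x _ => ?_
      simp only [hG, smul_eq_mul, fourier_coe_apply]
      rw [mul_comm]
      congr 2
      have : (Real.pi : ℂ) ≠ 0 := by exact_mod_cast Real.pi_ne_zero
      push_cast
      field_simp
    rw [h1, h n, smul_zero]
  have hs : Summable (fourierCoeff (G : AddCircle (2 * Real.pi) → ℂ)) := by
    have : fourierCoeff (G : AddCircle (2 * Real.pi) → ℂ) = fun _ => 0 := funext hcoef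
    rw [this]
    exact summable_zero
  have hsum := hasSum_fourier_series_of_summable hs
  simp only [hcoef, zero_smul] at hsum
  have hG0 : G = 0 := hsum.unique hasSum_zero
  intro x
  rw [← hG x, hG0]
  rfl

lemma cf_exp (m n : ℤ) :
    cf (fun t => cexp (m * t * I)) n = if n = m then (2 * (Real.pi : ℂ)) else (0 : ℂ) := by
  unfold cf
  have h1 : ∀ x : ℝ, cexp (m * x * I) * cexp (-(n * x * I)) = cexp (((m - n : ℤ) : ℂ) * I * x) := by
    intro x
    rw [← Complex.exp_add]
    congr 1
    push_cast
    ring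
  simp only [h1]
  split_ifs with h
  · subst h
    simp
  · have hne : (((m - n : ℤ) : ℂ) * I) ≠ 0 := by
      refine mul_ne_zero ?_ I_ne_zero
      exact_mod_cast sub_ne_zero.2 (Ne.symm h)
    rw [integral_exp_mul_complex hne]
    have h2 : cexp (((m - n : ℤ) : ℂ) * I * ((2 * Real.pi : ℝ) : ℂ)) = 1 := by
      rw [Complex.exp_eq_one_iff]
      exact ⟨m - n, by push_cast; ring⟩
    rw [h2]
    simp

lemma cf_sub {F G : ℂ → ℂ} (hF : Continuous F) (hG : Continuous G) (n : ℤ) :
    cf (fun t => F t - G t) n = cf F n - cf G n := by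
  unfold cf
  rw [← intervalIntegral.integral_sub]
  · refine intervalIntegral.integral_congr fun x _ => ?_
    simp only
    ring
  · apply Continuous.intervalIntegrable
    fun_prop
  · apply Continuous.intervalIntegrable
    fun_prop

lemma cf_add {F G : ℂ → ℂ} (hF : Continuous F) (hG : Continuous G) (n : ℤ) :
    cf (fun t => F t + G t) n = cf F n + cf G n := by
  unfold cf
  rw [← intervalIntegral.integral_add]
  · refine intervalIntegral.integral_congr fun x _ => ?_
    simp only
    ring
  · apply Continuous.intervalIntegrable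
    fun_prop
  · apply Continuous.intervalIntegrable
    fun_prop

lemma cf_const_mul (c : ℂ) {F : ℂ → ℂ} (n : ℤ) :
    cf (fun t => c * F t) n = c * cf F n := by
  unfold cf
  rw [← intervalIntegral.integral_const_mul]
  refine intervalIntegral.integral_congr fun x _ => ?_
  simp only
  ring

/-- a periodic entire function whose Fourier coefficients vanish for `|n| ≥ 2` -/
theorem three_terms {F : ℂ → ℂ} (hF : Differentiable ℂ F) (hp : Per F)
    (h : ∀ n : ℤ, 2 ≤ |n| → cf F n = 0) :
    ∃ a b c : ℂ, ∀ t, F t = a * cexp (-(t * I)) + b + c * cexp (t * I) := by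
  have hpi : (2 * Real.pi : ℂ) ≠ 0 := by
    have : (Real.pi : ℂ) ≠ 0 := by exact_mod_cast Real.pi_ne_zero
    exact mul_ne_zero two_ne_zero this
  set a : ℂ := cf F (-1) / (2 * Real.pi) with ha
  set b : ℂ := cf F 0 / (2 * Real.pi) with hb
  set c : ℂ := cf F 1 / (2 * Real.pi) with hc
  refine ⟨a, b, c, ?_⟩
  let e : ℤ → ℂ → ℂ := fun m t => cexp (m * t * I)
  have he : ∀ m, Continuous (e m) := fun m => by fun_prop
  let G : ℂ → ℂ := fun t => F t - (a * e (-1) t + (b * e 0 t + c * e 1 t))
  have hGd : Differentiable ℂ G := by fun_prop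
  have hep : ∀ m, Per (e m) := by
    intro m t
    simp only [e]
    have : (m : ℂ) * (t + 2 * Real.pi) * I = m * t * I + (m : ℂ) * (2 * Real.pi * I) := by ring
    rw [this]
    exact Complex.exp_periodic.int_mul m _
  have hGp : Per G := by
    intro t
    simp only [G]
    rw [hp t, hep (-1) t, hep 0 t, hep 1 t]
  have hG0 : ∀ n, cf G n = 0 := by
    intro n
    have h1 : cf G n = cf F n - (a * cf (e (-1)) n + (b * cf (e 0) n + c * cf (e 1) n)) := by
      rw [cf_sub hF.continuous (by fun_prop)]
      rw [cf_add (F := fun t => a * e (-1) t) (G := fun t => b * e 0 t + c * e 1 t)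
        (by fun_prop) (by fun_prop)]
      rw [cf_add (F := fun t => b * e 0 t) (G := fun t => c * e 1 t) (by fun_prop) (by fun_prop)]
      rw [cf_const_mul, cf_const_mul, cf_const_mul]
    rw [h1]
    simp only [e]
    rw [cf_exp, cf_exp, cf_exp]
    by_cases hn : 2 ≤ |n|
    · rw [h n hn]
      have h2 : n ≠ -1 := by rintro rfl; simp at hn
      have h3 : n ≠ 0 := by rintro rfl; simp at hn
      have h4 : n ≠ 1 := by rintro rfl; simp at hn
      rw [if_neg h2, if_neg h3, if_neg h4]
      simp
    · have : n = -1 ∨ n = 0 ∨ n = 1 := by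
        have h5 : |n| < 2 := not_le.1 hn
        rw [abs_lt] at h5
        omega
      rcases this with rfl | rfl | rfl
      · simp only [if_true, if_neg (by decide : ¬ ((-1 : ℤ) = 0)),
          if_neg (by decide : ¬ ((-1 : ℤ) = 1)), mul_zero, add_zero]
        rw [ha]
        field_simp
        ring
      · simp only [if_true, if_neg (by decide : ¬ ((0 : ℤ) = -1)),
          if_neg (by decide : ¬ ((0 : ℤ) = 1)), mul_zero, add_zero, zero_add]
        rw [hb]
        field_simp
        ring
      · simp only [if_true, if_neg (by decide : ¬ ((1 : ℤ) = -1)),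
          if_neg (by decide : ¬ ((1 : ℤ) = 0)), mul_zero, zero_add]
        rw [hc]
        field_simp
        ring
  intro t
  have h6 := eq_zero_of_cf hGd hGp hG0 t
  simp only [G, e] at h6
  have e1 : cexp (((-1 : ℤ) : ℂ) * t * I) = cexp (-(t * I)) := by congr 1; push_cast; ring
  have e2 : cexp (((0 : ℤ) : ℂ) * t * I) = 1 := by simp
  have e3 : cexp (((1 : ℤ) : ℂ) * t * I) = cexp (t * I) := by congr 1; push_cast; ring
  rw [e1, e2, e3] at h6
  linear_combination h6

end Pool.Agent.W743.BE
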