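import Pool.Agent.W743.BE.Land
import Pool.Agent.W743.BE.Four

/-! The Fourier coefficients of the quadratic differential vanish -/

open Complex Set Filter Topology MeasureTheory

namespace Pool.Agent.W743.BE

/-- the combination of logarithmic derivatives -/
noncomputable def bet (A D : ℂ → ℂ) (t : ℂ) : ℂ := deriv A t / A t - deriv D t / D t / 3

lemma tend_exp {C ρ : ℝ} (hρ1 : ρ < 1) :
    Tendsto (fun Y : ℝ => C * (1 + Y) ^ 3 * Real.exp (ρ * Y) * Real.exp (-Y)) atTop (𝓝 0) := by
  have h1 := tendsto_rpow_mul_exp_neg_mul_atTop_nhds_zero 3 (1 - ρ) (by linarith)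
  have h2 : Tendsto (fun Y : ℝ => 1 + Y) atTop atTop := tendsto_atTop_add_const_left _ _ tendsto_id
  have h3 := (h1.comp h2).const_mul (C * Real.exp (1 - ρ))
  rw [mul_zero] at h3
  refine h3.congr fun Y => ?_
  simp only [Function.comp]
  have e1 : (1 + Y) ^ (3 : ℝ) = (1 + Y) ^ 3 := by
    rw [← Real.rpow_natCast]
    norm_num
  rw [e1]
  have e2 : Real.exp (1 - ρ) * Real.exp (-(1 - ρ) * (1 + Y)) = Real.exp (ρ * Y) * Real.exp (-Y) := by
    rw [← Real.exp_add, ← Real.exp_add]
    congr 1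
    ring
  calc C * Real.exp (1 - ρ) * ((1 + Y) ^ 3 * Real.exp (-(1 - ρ) * (1 + Y)))
      = C * (1 + Y) ^ 3 * (Real.exp (1 - ρ) * Real.exp (-(1 - ρ) * (1 + Y))) := by ring
    _ = _ := by rw [e2]; ring

lemma Per.deriv {F : ℂ → ℂ} (hp : Per F) : Per (deriv F) := by
  intro t
  have h : (fun t => F (t + 2 * Real.pi)) = F := funext hp
  have h2 := deriv_comp_add_const F (2 * Real.pi : ℂ) t
  rw [h] at h2
  exact h2.symm

lemma norm_E (n : ℤ) (x y : ℝ) : ‖cexp (-(n * (x + y * I) * I))‖ = Real.exp (n * y) := by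
  rw [Complex.norm_exp]
  congr 1
  have : (-((n : ℂ) * (x + y * I) * I)) = ((n * y : ℝ) : ℂ) - ((n * x : ℝ) : ℂ) * I := by
    push_cast
    linear_combination (-(n : ℂ) * y) * I_sq
  rw [this]
  simp

section

variable {ρ : ℝ} {A D P : ℂ → ℂ}

theorem up (hρ : 0 ≤ ρ) (hρ1 : ρ < 1) (hA : Differentiable ℂ A) (hD : Differentiable ℂ D)
    (hP : Differentiable ℂ P) (pA : Per A) (pD : Per D) (pP : Per P) (gA : Gr ρ A) (gD : Gr ρ D)
    (nA : ∃ t, A t ≠ 0) (nD : ∃ t, D t ≠ 0)
    (hrel : ∀ t, A t ≠ 0 → D t ≠ 0 →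
      P t = deriv (bet A D) t + bet A D t ^ 2 - deriv D t / D t / 3 * bet A D t)
    (n : ℤ) (hn : n ≤ -2) : cf P n = 0 := by
  obtain ⟨C, hC, hlines⟩ := good_lines hρ hA hD gA gD nA nD
  set S : ℝ → ℝ := fun Y => C * (1 + Y) ^ 3 * Real.exp (ρ * Y) with hS
  have hkey : ∀ Y : ℝ, 0 ≤ Y → ‖cf P n‖ ≤
      2 * Real.pi * (2 * |(n : ℝ)| * (S Y * Real.exp (-Y)) + 5 * (S Y * Real.exp (-Y)) ^ 2) := by
    intro Y hY
    obtain ⟨y, hy, hl⟩ := hlines Y hY
    have hS0 : 0 ≤ S Y := by rw [hS]; positivity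
    have hy0 : 0 ≤ y := hY.trans hy.1
    let β : ℝ → ℂ := fun x => bet A D (x + y * I)
    let E : ℝ → ℂ := fun x => cexp (-(n * (x + y * I) * I))
    let ε : ℝ → ℂ := fun x => deriv D (x + y * I) / D (x + y * I)
    have huIcc : uIcc (0 : ℝ) (2 * Real.pi) = Icc 0 (2 * Real.pi) := uIcc_of_le (by positivity)
    -- differentiability
    have hbd : ∀ x ∈ Icc (0 : ℝ) (2 * Real.pi),
        HasDerivAt (bet A D) (deriv (bet A D) (x + y * I)) (x + y * I) := by
      intro x hx
      obtain ⟨h1, h2, -, -⟩ := hl x hx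
      have d1 : DifferentiableAt ℂ (deriv A) (x + y * I) := (hA.analyticAt _).deriv.differentiableAt
      have d2 : DifferentiableAt ℂ (deriv D) (x + y * I) := (hD.analyticAt _).deriv.differentiableAt
      have : DifferentiableAt ℂ (bet A D) (x + y * I) := by
        unfold bet
        exact (d1.div (hA _) h1).sub ((d2.div (hD _) h2).div_const 3)
      exact this.hasDerivAt
    have hlin : ∀ x : ℝ, HasDerivAt (fun x : ℝ => (x + y * I : ℂ)) 1 x := fun x =>
      ((hasDerivAt_id x).ofReal_comp).add_const (y * I)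
    have hE : ∀ x : ℝ, HasDerivAt E (-(n * I) * E x) x := by
      intro x
      have h1 : HasDerivAt (fun x : ℝ => -(n * (x + y * I : ℂ) * I)) (-(n * 1 * I)) x :=
        (((hlin x).const_mul (n : ℂ)).mul_const I).neg
      have h2 := h1.cexp
      refine h2.congr_deriv ?_
      simp only [E]
      ring
    have hβE : ∀ x ∈ uIcc (0 : ℝ) (2 * Real.pi), HasDerivAt (fun x => β x * E x)
        (deriv (bet A D) (x + y * I) * E x - n * I * (β x * E x)) x := by
      intro x hx
      rw [huIcc] at hx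
      have h1 : HasDerivAt β (deriv (bet A D) (x + y * I)) x := by
        have := (hbd x hx).comp x (hlin x)
        rw [mul_one] at this
        exact this
      have h2 := h1.mul (hE x)
      refine h2.congr_deriv ?_
      ring
    -- continuity
    have hcl : Continuous (fun x : ℝ => (x + y * I : ℂ)) := by fun_prop
    have cA : ContinuousOn (fun x : ℝ => A (x + y * I)) (Icc 0 (2 * Real.pi)) :=
      (hA.continuous.comp hcl).continuousOn
    have cD : ContinuousOn (fun x : ℝ => D (x + y * I)) (Icc 0 (2 * Real.pi)) :=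
      (hD.continuous.comp hcl).continuousOn
    have cA' : ContinuousOn (fun x : ℝ => deriv A (x + y * I)) (Icc 0 (2 * Real.pi)) := by
      have : Continuous (deriv A) := (hA.contDiff (n := 1)).continuous_deriv le_rfl
      exact (this.comp hcl).continuousOn
    have cD' : ContinuousOn (fun x : ℝ => deriv D (x + y * I)) (Icc 0 (2 * Real.pi)) := by
      have : Continuous (deriv D) := (hD.contDiff (n := 1)).continuous_deriv le_rfl
      exact (this.comp hcl).continuousOn
    have cε : ContinuousOn ε (Icc 0 (2 * Real.pi)) := cD'.div cD fun x hx => (hl x hx).2.1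
    have cβ : ContinuousOn β (Icc 0 (2 * Real.pi)) :=
      (cA'.div cA fun x hx => (hl x hx).1).sub (cε.div_const 3)
    have cE : Continuous E := continuous_iff_continuousAt.2 fun x => (hE x).continuousAt
    have cP : Continuous (fun x : ℝ => P (x + y * I)) := hP.continuous.comp hcl
    have hrelx : ∀ x ∈ Icc (0 : ℝ) (2 * Real.pi), deriv (bet A D) (x + y * I) =
        P (x + y * I) - β x ^ 2 + ε x / 3 * β x := by
      intro x hx
      have := hrel _ (hl x hx).1 (hl x hx).2.1
      rw [this]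
      simp only [β, ε]
      ring
    have cdb : ContinuousOn (fun x : ℝ => deriv (bet A D) (x + y * I) * E x -
        n * I * (β x * E x)) (Icc 0 (2 * Real.pi)) := by
      have : ContinuousOn (fun x : ℝ => (P (x + y * I) - β x ^ 2 + ε x / 3 * β x) * E x -
        n * I * (β x * E x)) (Icc 0 (2 * Real.pi)) := by
        have c1 := cE.continuousOn (s := Icc (0 : ℝ) (2 * Real.pi))
        have c2 := cP.continuousOn (s := Icc (0 : ℝ) (2 * Real.pi))
        exact (((c2.sub (cβ.pow 2)).add ((cε.div_const 3).mul cβ)).mul c1).sub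
          (continuousOn_const.mul (cβ.mul c1))
      refine this.congr fun x hx => ?_
      simp only
      rw [hrelx x hx]
    have hFTC := intervalIntegral.integral_eq_sub_of_hasDerivAt hβE
      (ContinuousOn.intervalIntegrable (by rw [huIcc]; exact cdb))
    have hper : β (2 * Real.pi) * E (2 * Real.pi) - β 0 * E 0 = 0 := by
      have e1 : (((2 * Real.pi : ℝ) : ℂ) + y * I) = (((0 : ℝ) : ℂ) + y * I) + 2 * Real.pi := by
        push_cast; ring
      have e2 : β (2 * Real.pi) = β 0 := by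
        simp only [β, bet]
        rw [e1, pA _, pD _, pA.deriv _, pD.deriv _]
      have e3 : E (2 * Real.pi) = E 0 := by
        have := (show Per (fun _ => (1 : ℂ)) from fun _ => rfl).mul_exp n (((0 : ℝ) : ℂ) + y * I)
        simp only [one_mul] at this
        simp only [E]
        rw [e1]
        exact this
      rw [e2, e3, sub_self]
    rw [hper] at hFTC
    -- the integral
    have hint : cf P n = ∫ x in (0 : ℝ)..(2 * Real.pi),
        (n * I * β x + β x ^ 2 - ε x / 3 * β x) * E x := by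
      rw [cf_shift hP pP n y]
      have h1 : ∫ x in (0 : ℝ)..(2 * Real.pi), P (x + y * I) * cexp (-(n * (x + y * I) * I)) =
          ∫ x in (0 : ℝ)..(2 * Real.pi), ((n * I * β x + β x ^ 2 - ε x / 3 * β x) * E x +
            (deriv (bet A D) (x + y * I) * E x - n * I * (β x * E x))) := by
        refine intervalIntegral.integral_congr fun x hx => ?_
        rw [huIcc] at hx
        have := hrelx x hx
        simp only [this, E]
        ring
      rw [h1, intervalIntegral.integral_add, hFTC, add_zero]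
      · apply ContinuousOn.intervalIntegrable
        rw [huIcc]
        exact (((continuousOn_const.mul cβ).add (cβ.pow 2)).sub ((cε.div_const 3).mul cβ)).mul
          cE.continuousOn
      · exact ContinuousOn.intervalIntegrable (by rw [huIcc]; exact cdb)
    rw [hint]
    have hbound : ∀ x ∈ Set.uIoc (0 : ℝ) (2 * Real.pi), ‖(n * I * β x + β x ^ 2 - ε x / 3 * β x) * E x‖ ≤
        2 * |(n : ℝ)| * (S Y * Real.exp (-Y)) + 5 * (S Y * Real.exp (-Y)) ^ 2 := by
      intro x hx
      have hx' : x ∈ Icc (0 : ℝ) (2 * Real.pi) := by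
        rw [uIoc_of_le (by positivity)] at hx
        exact Ioc_subset_Icc_self hx
      obtain ⟨-, -, h3, h4⟩ := hl x hx'
      have h3' : ‖deriv A (x + y * I) / A (x + y * I)‖ ≤ S Y := h3
      have h4' : ‖ε x‖ ≤ S Y := h4
      have h5 : ‖ε x / 3‖ ≤ S Y / 3 := by
        rw [norm_div]
        have : ‖(3 : ℂ)‖ = 3 := by simp
        rw [this]
        gcongr
      have h6 : ‖β x‖ ≤ 4 / 3 * S Y := by
        have : ‖β x‖ ≤ ‖deriv A (x + y * I) / A (x + y * I)‖ + ‖ε x / 3‖ := norm_sub_le _ _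
        linarith
      have h7 : ‖E x‖ ≤ Real.exp (-Y) ^ 2 := by
        simp only [E]
        rw [norm_E, ← Real.exp_nat_mul]
        apply Real.exp_le_exp.2
        have h8 : (n : ℝ) ≤ -2 := by exact_mod_cast hn
        have h9 : (n : ℝ) * y ≤ -2 * y := mul_le_mul_of_nonneg_right h8 hy0
        push_cast
        linarith [hy.1]
      have he1 : Real.exp (-Y) ≤ 1 := Real.exp_le_one_iff.2 (by linarith)
      have he0 : 0 < Real.exp (-Y) := Real.exp_pos _
      calc ‖(n * I * β x + β x ^ 2 - ε x / 3 * β x) * E x‖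
          = ‖n * I * β x + β x ^ 2 - ε x / 3 * β x‖ * ‖E x‖ := norm_mul _ _
        _ ≤ (‖(n : ℂ) * I * β x‖ + ‖β x ^ 2‖ + ‖ε x / 3 * β x‖) * ‖E x‖ := by
            gcongr
            exact (norm_sub_le _ _).trans (add_le_add (norm_add_le _ _) le_rfl)
        _ = (|(n : ℝ)| * ‖β x‖ + ‖β x‖ ^ 2 + ‖ε x / 3‖ * ‖β x‖) * ‖E x‖ := by
            rw [norm_mul, norm_mul, norm_pow, norm_mul, norm_I, mul_one]
            congr 4
            rw [Complex.norm_intCast]
        _ ≤ (|(n : ℝ)| * (4 / 3 * S Y) + (4 / 3 * S Y) ^ 2 + S Y / 3 * (4 / 3 * S Y)) *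
            Real.exp (-Y) ^ 2 := by gcongr
        _ ≤ (2 * |(n : ℝ)| * S Y + 5 * S Y ^ 2) * Real.exp (-Y) ^ 2 := by
            have h0 : 0 ≤ |(n : ℝ)| * S Y := by positivity
            refine mul_le_mul_of_nonneg_right ?_ (by positivity)
            nlinarith [sq_nonneg (S Y)]
        _ = 2 * |(n : ℝ)| * (S Y * Real.exp (-Y)) * Real.exp (-Y) +
            5 * (S Y * Real.exp (-Y)) ^ 2 := by ring
        _ ≤ _ := by
            have : 0 ≤ 2 * |(n : ℝ)| * (S Y * Real.exp (-Y)) := by positivity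
            have := mul_le_of_le_one_right this he1
            linarith
    have := intervalIntegral.norm_integral_le_of_norm_le_const hbound
    rw [sub_zero, abs_of_pos (show 0 < 2 * Real.pi by positivity)] at this
    linarith
  -- limit
  have hlim : Tendsto (fun Y : ℝ => 2 * Real.pi * (2 * |(n : ℝ)| * (S Y * Real.exp (-Y)) +
      5 * (S Y * Real.exp (-Y)) ^ 2)) atTop (𝓝 0) := by
    have h1 : Tendsto (fun Y : ℝ => S Y * Real.exp (-Y)) atTop (𝓝 0) := tend_exp hρ1
    have h2 := ((h1.const_mul (2 * |(n : ℝ)|)).add ((h1.pow 2).const_mul 5)).const_mul (2 * Real.pi)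
    simpa using h2
  have h3 : ‖cf P n‖ ≤ 0 := ge_of_tendsto hlim (by
    filter_upwards [eventually_ge_atTop (0 : ℝ)] with Y hY using hkey Y hY)
  exact norm_le_zero_iff.1 h3

lemma cf_neg {F : ℂ → ℂ} (hp : Per F) (n : ℤ) : cf (fun t => F (-t)) n = cf F (-n) := by
  unfold cf
  have h1 : ∫ x in (0 : ℝ)..(2 * Real.pi), F (-(x : ℂ)) * cexp (-(n * x * I)) =
      ∫ x in (0 : ℝ)..(2 * Real.pi), (fun u : ℝ => F u * cexp (-(((-n : ℤ) : ℂ) * u * I))) (-x) := by
    refine intervalIntegral.integral_congr fun x _ => ?_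
    simp only
    push_cast
    congr 2
    ring
  rw [h1, intervalIntegral.integral_comp_neg
    (fun u : ℝ => F u * cexp (-(((-n : ℤ) : ℂ) * u * I)))]
  have hper : Function.Periodic (fun u : ℝ => F u * cexp (-(((-n : ℤ) : ℂ) * u * I)))
      (2 * Real.pi) := by
    intro u
    have := hp.mul_exp (-n) u
    simp only at this ⊢
    rw [← this]
    push_cast
    rfl
  have h2 := hper.intervalIntegral_add_eq (-(2 * Real.pi)) 0
  rw [neg_add_cancel, zero_add] at h2
  rw [neg_zero, h2]

lemma Per.neg {F : ℂ → ℂ} (hp : Per F) : Per (fun t => F (-t)) := by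
  intro t
  have := hp (-t - 2 * Real.pi)
  simp only
  rw [show -(t + 2 * Real.pi : ℂ) = -t - 2 * Real.pi by ring, ← this]
  congr 1
  ring

lemma deriv_neg_arg (F : ℂ → ℂ) (t : ℂ) : deriv (fun s => F (-s)) t = -deriv F (-t) :=
  deriv_comp_neg F t

theorem down (hρ : 0 ≤ ρ) (hρ1 : ρ < 1) (hA : Differentiable ℂ A) (hD : Differentiable ℂ D)
    (hP : Differentiable ℂ P) (pA : Per A) (pD : Per D) (pP : Per P) (gA : Gr ρ A) (gD : Gr ρ D)
    (nA : ∃ t, A t ≠ 0) (nD : ∃ t, D t ≠ 0)
    (hrel : ∀ t, A t ≠ 0 → D t ≠ 0 →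
      P t = deriv (bet A D) t + bet A D t ^ 2 - deriv D t / D t / 3 * bet A D t)
    (n : ℤ) (hn : 2 ≤ n) : cf P n = 0 := by
  have key : bet (fun t => A (-t)) (fun t => D (-t)) = fun t => -bet A D (-t) := by
    funext t
    unfold bet
    rw [deriv_neg_arg, deriv_neg_arg]
    ring
  have h := up (A := fun t => A (-t)) (D := fun t => D (-t)) (P := fun t => P (-t)) hρ hρ1
    (hA.comp differentiable_neg) (hD.comp differentiable_neg) (hP.comp differentiable_neg)
    pA.neg pD.neg pP.neg gA.neg gD.neg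
    (by obtain ⟨t, ht⟩ := nA; exact ⟨-t, by simpa using ht⟩)
    (by obtain ⟨t, ht⟩ := nD; exact ⟨-t, by simpa using ht⟩)
    (by
      intro t h1 h2
      have := hrel (-t) h1 h2
      rw [key]
      have e1 : deriv (fun t => -bet A D (-t)) t = deriv (bet A D) (-t) := by
        have : (fun t => -bet A D (-t)) = fun t => -((fun s => bet A D (-s)) t) := rfl
        rw [this, deriv.fun_neg, deriv_neg_arg, neg_neg]
      rw [e1, deriv_neg_arg]
      simp only
      rw [this]
      ring)
    (-n) (by omega)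
  rw [cf_neg pP, neg_neg] at h
  exact h

/-- the quadratic differential is a trigonometric polynomial of degree one -/
theorem P_three (hρ : 0 ≤ ρ) (hρ1 : ρ < 1) (hA : Differentiable ℂ A) (hD : Differentiable ℂ D)
    (hP : Differentiable ℂ P) (pA : Per A) (pD : Per D) (pP : Per P) (gA : Gr ρ A) (gD : Gr ρ D)
    (nA : ∃ t, A t ≠ 0) (nD : ∃ t, D t ≠ 0)
    (hrel : ∀ t, A t ≠ 0 → D t ≠ 0 →
      P t = deriv (bet A D) t + bet A D t ^ 2 - deriv D t / D t / 3 * bet A D t) :
    ∃ a b c : ℂ, ∀ t, P t = a * cexp (-(t * I)) + b + c * cexp (t * I) := by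
  refine three_terms hP pP fun n hn => ?_
  rcases le_abs.1 hn with h | h
  · exact down hρ hρ1 hA hD hP pA pD pP gA gD nA nD hrel n h
  · exact up hρ hρ1 hA hD hP pA pD pP gA gD nA nD hrel n (by omega)

/-- a zero free function of order less than one is an exponential -/
theorem log_up (hρ : 0 ≤ ρ) (hρ1 : ρ < 1) (hD : Differentiable ℂ D) (pD : Per D) (gD : Gr ρ D)
    (nD : ∃ t, D t ≠ 0) {e : ℂ → ℂ} (he : Differentiable ℂ e) (pe : Per e)
    {K : ℝ} (hrel : ∀ t, 0 < t.im → D t ≠ 0 → ‖e t‖ ≤ K + ‖deriv D t / D t‖) (n : ℤ)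
    (hn : n ≤ -1) :
    cf e n = 0 := by
  obtain ⟨C, hC, hlines⟩ := good_lines hρ hD hD gD gD nD nD
  set S : ℝ → ℝ := fun Y => C * (1 + Y) ^ 3 * Real.exp (ρ * Y) with hS
  have hkey : ∀ Y : ℝ, 1 ≤ Y → ‖cf e n‖ ≤
      2 * Real.pi * (|K| * Real.exp (-Y) + S Y * Real.exp (-Y)) := by
    intro Y hY
    obtain ⟨y, hy, hl⟩ := hlines Y (by linarith)
    rw [cf_shift he pe n y]
    have hbound : ∀ x ∈ Set.uIoc (0 : ℝ) (2 * Real.pi),
        ‖e (x + y * I) * cexp (-(n * (x + y * I) * I))‖ ≤
        |K| * Real.exp (-Y) + S Y * Real.exp (-Y) := by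
      intro x hx
      have hx' : x ∈ Icc (0 : ℝ) (2 * Real.pi) := by
        rw [uIoc_of_le (by positivity)] at hx
        exact Ioc_subset_Icc_self hx
      obtain ⟨h2, -, h3, -⟩ := hl x hx'
      have h4 := hrel (x + y * I) (by simp; linarith [hy.1]) h2
      have h5 : ‖e (x + y * I)‖ ≤ |K| + S Y := h4.trans (add_le_add (le_abs_self K) h3)
      rw [norm_mul, norm_E]
      have h6 : Real.exp (n * y) ≤ Real.exp (-Y) := by
        apply Real.exp_le_exp.2
        have h8 : (n : ℝ) ≤ -1 := by exact_mod_cast hn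
        have h9 : (n : ℝ) * y ≤ -1 * y := mul_le_mul_of_nonneg_right h8 (by linarith [hy.1])
        linarith [hy.1]
      have hS0 : 0 ≤ S Y := by rw [hS]; positivity
      calc ‖e (x + y * I)‖ * Real.exp (n * y) ≤ (|K| + S Y) * Real.exp (-Y) := by gcongr
        _ = _ := by ring
    have := intervalIntegral.norm_integral_le_of_norm_le_const hbound
    rw [sub_zero, abs_of_pos (show 0 < 2 * Real.pi by positivity)] at this
    linarith
  have hlim : Tendsto (fun Y : ℝ => 2 * Real.pi * (|K| * Real.exp (-Y) + S Y * Real.exp (-Y)))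
      atTop (𝓝 0) := by
    have h1 : Tendsto (fun Y : ℝ => S Y * Real.exp (-Y)) atTop (𝓝 0) := tend_exp hρ1
    have h2 : Tendsto (fun Y : ℝ => Real.exp (-Y)) atTop (𝓝 0) := Real.tendsto_exp_neg_atTop_nhds_zero
    have h3 := ((h2.const_mul |K|).add h1).const_mul (2 * Real.pi)
    simpa using h3
  have h3 : ‖cf e n‖ ≤ 0 := ge_of_tendsto hlim (by
    filter_upwards [eventually_ge_atTop (1 : ℝ)] with Y hY using hkey Y hY)
  exact norm_le_zero_iff.1 h3

theorem log_const (hρ : 0 ≤ ρ) (hρ1 : ρ < 1) (hD : Differentiable ℂ D) (pD : Per D) (gD : Gr ρ D)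
    (nD : ∃ t, D t ≠ 0) {e : ℂ → ℂ} (he : Differentiable ℂ e) (pe : Per e)
    {K : ℝ} (hrel : ∀ t, t.im ≠ 0 → D t ≠ 0 → ‖e t‖ ≤ K + ‖deriv D t / D t‖) :
    ∃ b : ℂ, ∀ t, e t = b := by
  have h1 : ∀ n : ℤ, n ≤ -1 → cf e n = 0 := fun n hn =>
    log_up hρ hρ1 hD pD gD nD he pe (fun t ht h => hrel t ht.ne' h) n hn
  have h2 : ∀ n : ℤ, 1 ≤ n → cf e n = 0 := by
    intro n hn
    have h := log_up (D := fun t => D (-t)) (e := fun t => e (-t)) hρ hρ1
      (hD.comp differentiable_neg) pD.neg gD.neg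
      (by obtain ⟨t, ht⟩ := nD; exact ⟨-t, by simpa using ht⟩)
      (he.comp differentiable_neg) pe.neg (K := K) (fun t ht h => by
        rw [deriv_neg_arg]
        have := hrel (-t) (by rw [neg_im]; exact neg_ne_zero.2 ht.ne') h
        rw [neg_div, norm_neg]
        exact this) (-n) (by omega)
    rw [cf_neg pe, neg_neg] at h
    exact h
  have hpi : (2 * Real.pi : ℂ) ≠ 0 := by
    have : (Real.pi : ℂ) ≠ 0 := by exact_mod_cast Real.pi_ne_zero
    exact mul_ne_zero two_ne_zero this
  set b : ℂ := cf e 0 / (2 * Real.pi) with hb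
  refine ⟨b, fun t => ?_⟩
  have h3 : ∀ n, cf (fun t => e t - b * cexp (((0 : ℤ) : ℂ) * t * I)) n = 0 := by
    intro n
    rw [cf_sub he.continuous (by fun_prop), cf_const_mul, cf_exp]
    by_cases hn : n = 0
    · subst hn
      rw [if_pos rfl, hb]
      field_simp
      simp
    · rw [if_neg hn, mul_zero, sub_zero]
      rcases lt_or_gt_of_ne hn with h | h
      · exact h1 n (by omega)
      · exact h2 n (by omega)
  have h4 := eq_zero_of_cf (F := fun t => e t - b * cexp (((0 : ℤ) : ℂ) * t * I)) (by fun_prop)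
    (by
      intro t
      simp only [Int.cast_zero, zero_mul, Complex.exp_zero]
      rw [pe t]) h3 t
  simp only [Int.cast_zero, zero_mul, Complex.exp_zero, mul_one] at h4
  exact sub_eq_zero.1 h4

end

end Pool.Agent.W743.BE
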