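import Mathlib

/-! Selection of a line which is far from a given finite set of ordinates, on average -/

open Set MeasureTheory Filter Topology

namespace Pool.Agent.W743.BE

/-- the averaging kernel -/
noncomputable def ker (δ β y : ℝ) : ℝ := 1 / Real.sqrt ((y - β) ^ 2 + δ ^ 2)

lemma ker_cont {δ : ℝ} (hδ : 0 < δ) (β : ℝ) : Continuous (ker δ β) := by
  unfold ker
  refine continuous_const.div (by fun_prop) fun y => ?_
  have : 0 < (y - β) ^ 2 + δ ^ 2 := by positivity
  exact (Real.sqrt_pos.2 this).ne'

lemma ker_nonneg (δ β y : ℝ) : 0 ≤ ker δ β y := by unfold ker; positivity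

lemma ker_ge {δ β y : ℝ} (hδ : 0 < δ) (h : δ ≤ |y - β|) : 1 / |y - β| ≤ 2 * ker δ β y := by
  unfold ker
  have h0 : 0 < |y - β| := hδ.trans_le h
  have h1 : 0 < (y - β) ^ 2 + δ ^ 2 := by positivity
  have h2 : Real.sqrt ((y - β) ^ 2 + δ ^ 2) ≤ 2 * |y - β| := by
    rw [Real.sqrt_le_left (by positivity)]
    have h3 : δ ^ 2 ≤ |y - β| ^ 2 := pow_le_pow_left₀ hδ.le h 2
    rw [sq_abs] at h3
    have h4 : (2 * |y - β|) ^ 2 = 4 * (y - β) ^ 2 := by rw [mul_pow, sq_abs]; norm_num
    rw [h4]
    nlinarith [sq_nonneg (y - β)]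
  rw [mul_one_div, div_le_div_iff₀ h0 (Real.sqrt_pos.2 h1)]
  linarith

lemma arsinh_sub {a h : ℝ} (hh : 0 ≤ h) :
    Real.arsinh (a + h) - Real.arsinh a ≤ 2 * Real.arsinh h := by
  have hsub : ∀ x y : ℝ, 0 ≤ x → 0 ≤ y → Real.arsinh (x + y) ≤ Real.arsinh x + Real.arsinh y := by
    intro x y hx hy
    have h1 : 0 ≤ Real.arsinh x := Real.arsinh_nonneg_iff.2 hx
    have h2 : 0 ≤ Real.arsinh y := Real.arsinh_nonneg_iff.2 hy
    rw [← Real.arsinh_sinh (Real.arsinh x + Real.arsinh y)]
    apply Real.arsinh_le_arsinh.2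
    rw [Real.sinh_add, Real.sinh_arsinh, Real.sinh_arsinh]
    have h3 := Real.one_le_cosh (Real.arsinh x)
    have h4 := Real.one_le_cosh (Real.arsinh y)
    nlinarith
  have hh' : 0 ≤ Real.arsinh h := Real.arsinh_nonneg_iff.2 hh
  rcases le_total 0 a with ha | ha
  · have := hsub a h ha hh
    linarith
  · rcases le_total (a + h) 0 with hb | hb
    · have := hsub (-(a + h)) h (by linarith) hh
      have e1 : -(a + h) + h = -a := by ring
      rw [e1, Real.arsinh_neg, Real.arsinh_neg] at this
      linarith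
    · have h1 : Real.arsinh (a + h) ≤ Real.arsinh h := Real.arsinh_le_arsinh.2 (by linarith)
      have h2 : Real.arsinh (-a) ≤ Real.arsinh h := Real.arsinh_le_arsinh.2 (by linarith)
      rw [Real.arsinh_neg] at h2
      linarith

lemma ker_int {δ : ℝ} (hδ : 0 < δ) (β Y : ℝ) :
    ∫ y in Y..(Y + 1), ker δ β y ≤ 2 * Real.arsinh (1 / δ) := by
  have hd : ∀ y ∈ uIcc Y (Y + 1), HasDerivAt (fun y => Real.arsinh ((y - β) / δ)) (ker δ β y) y := by
    intro y _
    have h1 : HasDerivAt (fun y : ℝ => (y - β) / δ) (1 / δ) y :=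
      ((hasDerivAt_id y).sub_const β).div_const δ
    have h2 := (Real.hasDerivAt_arsinh ((y - β) / δ)).comp y h1
    refine h2.congr_deriv ?_
    unfold ker
    have h3 : (y - β) ^ 2 + δ ^ 2 = δ ^ 2 * (1 + ((y - β) / δ) ^ 2) := by
      field_simp
      ring
    rw [h3, Real.sqrt_mul (by positivity), Real.sqrt_sq hδ.le]
    have h4 : 0 < 1 + ((y - β) / δ) ^ 2 := by positivity
    have h5 := (Real.sqrt_pos.2 h4).ne'
    field_simp
  rw [intervalIntegral.integral_eq_sub_of_hasDerivAt hd ((ker_cont hδ β).intervalIntegrable _ _)]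
  have h6 : (Y + 1 - β) / δ = (Y - β) / δ + 1 / δ := by ring
  rw [h6]
  exact arsinh_sub (by positivity)

lemma arsinh_le {u : ℝ} (hu : 0 ≤ u) : Real.arsinh u ≤ Real.log (1 + 2 * u) := by
  unfold Real.arsinh
  apply Real.log_le_log
  · have := Real.sqrt_nonneg (1 + u ^ 2)
    have h1 : 0 < Real.sqrt (1 + u ^ 2) := Real.sqrt_pos.2 (by positivity)
    linarith
  · have : Real.sqrt (1 + u ^ 2) ≤ 1 + u := by
      rw [Real.sqrt_le_left (by positivity)]
      nlinarith
    linarith

/-- **Selection of a good line.** -/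
theorem select (b : Multiset ℝ) (Y : ℝ) : ∃ y ∈ Icc Y (Y + 1), (∀ β ∈ b, y ≠ β) ∧
    (b.map fun β => 1 / |y - β|).sum ≤
      16 * ((Multiset.card b : ℝ) + 1) * Real.log (1 + 16 * ((Multiset.card b : ℝ) + 1)) := by
  classical
  set N : ℝ := ((Multiset.card b : ℕ) : ℝ) with hN
  have hN0 : 0 ≤ N := Nat.cast_nonneg _
  set δ : ℝ := 1 / (8 * (N + 1)) with hδ
  have hδ0 : 0 < δ := by positivity
  set L : ℝ := Real.arsinh (1 / δ) with hL
  have h1δ : 1 / δ = 8 * (N + 1) := by rw [hδ, one_div_one_div]
  have hL1 : L ≤ Real.log (1 + 16 * (N + 1)) := by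
    have := arsinh_le (u := 1 / δ) (by positivity)
    rw [h1δ] at this
    have e : 1 + 2 * (8 * (N + 1)) = 1 + 16 * (N + 1) := by ring
    rw [e] at this
    rw [hL, h1δ]
    exact this
  have hL0 : 0 < L := Real.arsinh_pos_iff.2 (by positivity)
  let G : ℝ → ℝ := fun y => (b.map fun β => ker δ β y).sum
  have hGc : Continuous G := by
    have : ∀ s : Multiset ℝ, Continuous fun y => (s.map fun β => ker δ β y).sum := by
      intro s
      induction s using Multiset.induction_on with
      | empty => simp only [Multiset.map_zero, Multiset.sum_zero]; exact continuous_const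
      | cons a s ih =>
        simp only [Multiset.map_cons, Multiset.sum_cons]
        exact (ker_cont hδ0 a).add ih
    exact this b
  have hG0 : ∀ y, 0 ≤ G y := by
    intro y
    apply Multiset.sum_nonneg
    intro x hx
    rw [Multiset.mem_map] at hx
    obtain ⟨β, -, rfl⟩ := hx
    exact ker_nonneg _ _ _
  have hGi : ∫ y in Y..(Y + 1), G y ≤ N * (2 * L) := by
    have : ∀ s : Multiset ℝ, ∫ y in Y..(Y + 1), (s.map fun β => ker δ β y).sum ≤
        (Multiset.card s : ℝ) * (2 * L) := by
      intro s
      induction s using Multiset.induction_on with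
      | empty => simp
      | cons a s ih =>
        simp only [Multiset.map_cons, Multiset.sum_cons, Multiset.card_cons]
        have hc : Continuous fun y => (s.map fun β => ker δ β y).sum := by
          clear ih
          induction s using Multiset.induction_on with
          | empty => simp only [Multiset.map_zero, Multiset.sum_zero]; exact continuous_const
          | cons a s ih =>
            simp only [Multiset.map_cons, Multiset.sum_cons]
            exact (ker_cont hδ0 a).add ih
        rw [intervalIntegral.integral_add ((ker_cont hδ0 a).intervalIntegrable _ _)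
          (hc.intervalIntegrable _ _)]
        have := ker_int hδ0 a Y
        push_cast
        linarith
    exact this b
  by_contra hcon
  push Not at hcon
  -- the bad set
  let U : Set ℝ := ⋃ β ∈ b.toFinset, Ioo (β - δ) (β + δ)
  have hUm : MeasurableSet U := Finset.measurableSet_biUnion _ fun _ _ => measurableSet_Ioo
  have hUv : volume U ≤ ENNReal.ofReal (1 / 4) := by
    calc volume U ≤ ∑ β ∈ b.toFinset, volume (Ioo (β - δ) (β + δ)) :=
          measure_biUnion_finset_le _ _
      _ = ∑ β ∈ b.toFinset, ENNReal.ofReal (2 * δ) := by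
          refine Finset.sum_congr rfl fun β _ => ?_
          rw [Real.volume_Ioo]
          congr 1
          ring
      _ = ENNReal.ofReal (b.toFinset.card * (2 * δ)) := by
          rw [Finset.sum_const, nsmul_eq_mul, ENNReal.ofReal_mul (p := (b.toFinset.card : ℝ))
            (by positivity), ENNReal.ofReal_natCast]
      _ ≤ ENNReal.ofReal (1 / 4) := by
          apply ENNReal.ofReal_le_ofReal
          have h1 : ((b.toFinset.card : ℕ) : ℝ) ≤ N := by
            rw [hN]
            exact_mod_cast Multiset.toFinset_card_le b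
          have h2 : (N + 1) * δ = 1 / 8 := by
            rw [hδ]
            field_simp
          nlinarith
  set K : ℝ := 8 * (N + 1) * Real.log (1 + 16 * (N + 1)) with hK
  have hK0 : 0 < K := by
    have : 0 < Real.log (1 + 16 * (N + 1)) := hL0.trans_le hL1
    positivity
  let V : Set ℝ := Icc Y (Y + 1) \ U
  have hVm : MeasurableSet V := measurableSet_Icc.diff hUm
  have hVG : ∀ y ∈ V, K ≤ G y := by
    rintro y ⟨hy, hyU⟩
    have hfar : ∀ β ∈ b, δ ≤ |y - β| := by
      intro β hβ
      by_contra hlt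
      push Not at hlt
      apply hyU
      simp only [U, mem_iUnion]
      refine ⟨β, Multiset.mem_toFinset.2 hβ, ?_⟩
      rw [abs_lt] at hlt
      constructor <;> linarith
    have hne : ∀ β ∈ b, y ≠ β := by
      intro β hβ he
      have := hfar β hβ
      rw [he, sub_self, abs_zero] at this
      linarith
    have h1 := hcon y hy hne
    have h2 : (b.map fun β => 1 / |y - β|).sum ≤ (b.map fun β => 2 * ker δ β y).sum := by
      apply Multiset.sum_map_le_sum_map
      intro β hβ
      exact ker_ge hδ0 (hfar β hβ)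
    rw [Multiset.sum_map_mul_left] at h2
    have h3 : 16 * (N + 1) * Real.log (1 + 16 * (N + 1)) < 2 * G y := h1.trans_le h2
    rw [hK]
    linarith
  have hVv : ENNReal.ofReal (3 / 4) ≤ volume V := by
    have h1 : volume (Icc Y (Y + 1)) ≤ volume V + volume U := by
      refine (measure_mono ?_).trans (measure_union_le V U)
      intro y hy
      by_cases h : y ∈ U
      · exact Or.inr h
      · exact Or.inl ⟨hy, h⟩
    rw [Real.volume_Icc] at h1
    have h2 : ENNReal.ofReal (Y + 1 - Y) = ENNReal.ofReal (3 / 4) + ENNReal.ofReal (1 / 4) := by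
      rw [← ENNReal.ofReal_add (by norm_num) (by norm_num)]
      congr 1
      ring
    rw [h2] at h1
    have h3 : ENNReal.ofReal (3 / 4) + ENNReal.ofReal (1 / 4) ≤ volume V + ENNReal.ofReal (1 / 4) :=
      h1.trans (by gcongr)
    exact (ENNReal.add_le_add_iff_right ENNReal.ofReal_ne_top).1 h3
  have hVfin : volume V ≠ ⊤ :=
    ne_top_of_le_ne_top (by rw [Real.volume_Icc]; exact ENNReal.ofReal_ne_top)
      (measure_mono (sdiff_subset : V ⊆ Icc Y (Y + 1)))
  have hint : IntegrableOn G (Icc Y (Y + 1)) := hGc.continuousOn.integrableOn_Icc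
  have h5 : K * (volume V).toReal ≤ ∫ y in V, G y := by
    have := setIntegral_ge_of_const_le_real (μ := volume) (s := V) (f := G) (c := K) hVm hVfin hVG
      (hint.mono_set sdiff_subset)
    rw [mul_comm] at *
    simpa [Measure.real, mul_comm] using this
  have h6 : ∫ y in V, G y ≤ ∫ y in Icc Y (Y + 1), G y :=
    setIntegral_mono_set hint (Eventually.of_forall hG0) (Eventually.of_forall fun x hx => hx.1)
  have h7 : ∫ y in Icc Y (Y + 1), G y = ∫ y in Y..(Y + 1), G y := by
    rw [intervalIntegral.integral_of_le (by linarith), integral_Icc_eq_integral_Ioc]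
  have h8 : (3 / 4 : ℝ) ≤ (volume V).toReal := by
    rw [← ENNReal.ofReal_le_iff_le_toReal hVfin]
    exact hVv
  have h9 : K * (3 / 4) ≤ N * (2 * L) := by
    calc K * (3 / 4) ≤ K * (volume V).toReal := mul_le_mul_of_nonneg_left h8 hK0.le
      _ ≤ _ := h5.trans (h6.trans (h7.le.trans hGi))
  have h10 : N * (2 * L) ≤ (N + 1) * (2 * Real.log (1 + 16 * (N + 1))) := by gcongr; linarith
  have h11 : 0 < (N + 1) * Real.log (1 + 16 * (N + 1)) :=
    mul_pos (by positivity) (hL0.trans_le hL1)
  rw [hK] at h9
  nlinarith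

end Pool.Agent.W743.BE
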