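import Pool.Agent.H370R2.Local
import Pool.Agent.W743.BE.Sel

/-! Logarithmic derivatives on good lines -/

open Complex Set Filter Topology Metric H370 H370.Loc

namespace Pool.Agent.W743.BE

lemma Pf_logDeriv' {s : Multiset ℂ} {z : ℂ} (h : ∀ ρ ∈ s, z ≠ ρ) :
    ‖logDeriv (Pf s) z‖ ≤ (s.map fun ρ => 1 / ‖z - ρ‖).sum := by
  induction s using Multiset.induction_on with
  | empty =>
    have : Pf 0 = fun _ => (1 : ℂ) := funext Pf_zero
    rw [this]
    simp [logDeriv]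
  | cons ρ s ih =>
    have : Pf (ρ ::ₘ s) = fun z => (z - ρ) * Pf s z := funext (Pf_cons ρ s)
    have hz : z - ρ ≠ 0 := sub_ne_zero.2 (h ρ (Multiset.mem_cons_self ρ s))
    have hP : Pf s z ≠ 0 := Pf_ne_zero fun ρ' h' => h ρ' (Multiset.mem_cons_of_mem h')
    rw [this, logDeriv_mul z hz hP (by fun_prop) (Pf_diff s z)]
    have h1 : logDeriv (fun z => z - ρ) z = 1 / (z - ρ) := by
      rw [logDeriv_apply]
      congr 1
      simp
    rw [h1, Multiset.map_cons, Multiset.sum_cons]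
    refine (norm_add_le _ _).trans (add_le_add ?_ (ih fun ρ' h' => h ρ' (Multiset.mem_cons_of_mem h')))
    rw [norm_div, norm_one]

/-- Landau's lemma with the zeros exposed -/
theorem landau2 {f : ℂ → ℂ} {c : ℂ} {r r1 r2 R M : ℝ} (hr2 : 0 < r2) (h21 : r2 < r1)
    (h1r : r1 < r) (hrR : r < R) (hRr : R ≤ 2 * r) (hM : 1 ≤ M) (hMf : ‖f c‖ ≤ M)
    (hf : AnalyticOnNhd ℂ f (closedBall c R)) (hc : f c ≠ 0)
    (hb : ∀ z ∈ closedBall c R, ‖f z‖ ≤ M) :
    ∃ s : Multiset ℂ, (Multiset.card s : ℝ) ≤ Real.log (M / ‖f c‖) / Real.log (R / r) ∧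
      ∀ z ∈ closedBall c r2, (∀ ρ ∈ s, z ≠ ρ) →
      f z ≠ 0 ∧ ‖deriv f z / f z‖ ≤ (s.map fun ρ => 1 / ‖z - ρ‖).sum +
        2 * (Real.log (M / ‖f c‖) + Real.log (M / ‖f c‖) / Real.log (R / r) *
          Real.log (r / (R - r)) + 1) * r1 / (r - r1) / (r1 - r2) := by
  have hr : 0 < r := by linarith
  have hR : 0 < R := by linarith
  obtain ⟨s, g, hs, hg, hfg, hg0, hcard⟩ := extract hr hrR hM hf hc hb
  refine ⟨s, hcard, ?_⟩
  intro z hz hdist
  have hzr : z ∈ closedBall c r := closedBall_subset_closedBall (by linarith) hz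
  have hzR : z ∈ closedBall c R := closedBall_subset_closedBall hrR.le hzr
  have hcr : c ∈ closedBall c r := mem_closedBall_self hr.le
  have hcR : c ∈ closedBall c R := mem_closedBall_self hR.le
  have hPz : Pf s z ≠ 0 := Pf_ne_zero hdist
  have hfz : f z ≠ 0 := by rw [hfg z]; exact mul_ne_zero hPz (hg0 z hzr)
  refine ⟨hfz, ?_⟩
  have hfc : 0 < ‖f c‖ := norm_pos_iff.2 hc
  set n := Multiset.card s with hn
  have hlogM : 0 ≤ Real.log (M / ‖f c‖) := Real.log_nonneg (by rw [le_div_iff₀ hfc]; linarith)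
  have hRr0 : 0 < R - r := by linarith
  have hq : 1 ≤ r / (R - r) := by rw [le_div_iff₀ hRr0]; linarith
  have hlogq : 0 ≤ Real.log (r / (R - r)) := Real.log_nonneg hq
  -- bounds for g
  have hgsphere : ∀ w ∈ sphere c R, ‖g w‖ ≤ M / (R - r) ^ n := by
    intro w hw
    have hwR := sphere_subset_closedBall hw
    have h1 : (R - r) ^ n ≤ ‖Pf s w‖ := Pf_norm_ge hRr0.le fun ρ hρ => by
      have h2 := (hs ρ hρ).1
      rw [mem_closedBall, dist_eq_norm] at h2
      rw [mem_sphere, dist_eq_norm] at hw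
      have h3 : ‖w - c‖ ≤ ‖w - ρ‖ + ‖ρ - c‖ := by
        calc ‖w - c‖ = ‖(w - ρ) + (ρ - c)‖ := by congr 1; ring
          _ ≤ _ := norm_add_le _ _
      linarith
    rw [le_div_iff₀ (by positivity)]
    calc ‖g w‖ * (R - r) ^ n ≤ ‖g w‖ * ‖Pf s w‖ := mul_le_mul_of_nonneg_left h1 (norm_nonneg _)
      _ = ‖f w‖ := by rw [hfg w, norm_mul, mul_comm]
      _ ≤ M := hb w hwR
  have hgball : ∀ w ∈ closedBall c R, ‖g w‖ ≤ M / (R - r) ^ n := by
    intro w hw
    refine Complex.norm_le_of_forall_mem_frontier_norm_le (U := ball c R) isBounded_ball ?_ ?_ ?_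
    · apply DifferentiableOn.diffContOnCl
      rw [closure_ball c hR.ne']
      exact fun x hx => (hg x hx).differentiableAt.differentiableWithinAt
    · intro x hx
      rw [frontier_ball c hR.ne'] at hx
      exact hgsphere x hx
    · rwa [closure_ball c hR.ne']
  have hgc : ‖f c‖ / r ^ n ≤ ‖g c‖ := by
    rw [div_le_iff₀ (by positivity)]
    have h1 : ‖Pf s c‖ ≤ r ^ n := Pf_norm_le fun ρ hρ => by
      have h2 := (hs ρ hρ).1
      rw [mem_closedBall, dist_eq_norm, norm_sub_rev] at h2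
      exact h2
    calc ‖f c‖ = ‖g c‖ * ‖Pf s c‖ := by rw [hfg c, norm_mul, mul_comm]
      _ ≤ ‖g c‖ * r ^ n := mul_le_mul_of_nonneg_left h1 (norm_nonneg _)
  set B : ℝ := Real.log (M / ‖f c‖) + n * Real.log (r / (R - r)) with hB
  have hB0 : 0 ≤ B := by positivity
  have hexpB : Real.exp B = M / ‖f c‖ * (r / (R - r)) ^ n := by
    rw [hB, Real.exp_add, Real.exp_log (by positivity), Real.exp_nat_mul,
      Real.exp_log (by positivity)]
  have hgb : ∀ w ∈ closedBall c r, ‖g w‖ ≤ Real.exp B * ‖g c‖ := by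
    intro w hw
    refine (hgball w (closedBall_subset_closedBall hrR.le hw)).trans ?_
    rw [hexpB]
    calc M / (R - r) ^ n = M / ‖f c‖ * (r / (R - r)) ^ n * (‖f c‖ / r ^ n) := by
          rw [div_pow]; field_simp
      _ ≤ _ := mul_le_mul_of_nonneg_left hgc (by positivity)
  have hlg := logDeriv_zero_free hr2 h21 h1r hB0
    (hg.mono (closedBall_subset_closedBall hrR.le)) hg0 hgb hz
  have hlP := Pf_logDeriv' (s := s) hdist
  have heq : deriv f z / f z = logDeriv (Pf s) z + logDeriv g z := by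
    have h1 : f = fun w => Pf s w * g w := funext hfg
    rw [← logDeriv_apply]
    conv_lhs => rw [h1]
    exact logDeriv_mul z hPz (hg0 z hzr) (Pf_diff s z) (hg z hzR).differentiableAt
  rw [heq]
  refine (norm_add_le _ _).trans (add_le_add hlP (hlg.trans ?_))
  have h8 : B ≤ Real.log (M / ‖f c‖) + Real.log (M / ‖f c‖) / Real.log (R / r) *
        Real.log (r / (R - r)) := by
    rw [hB]
    have := mul_le_mul_of_nonneg_right hcard hlogq
    linarith
  have h9 : 0 < r - r1 := by linarith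
  have h10 : 0 < r1 - r2 := by linarith
  have h11 : 0 < r1 := by linarith
  gcongr

/-- growth of order `ρ` in `exp (i t)` -/
def Gr (ρ : ℝ) (f : ℂ → ℂ) : Prop :=
  ∃ A : ℝ, 0 ≤ A ∧ ∀ t : ℂ, ‖f t‖ ≤ Real.exp (A * Real.exp (ρ * |t.im|))

lemma Gr.neg {ρ : ℝ} {f : ℂ → ℂ} (h : Gr ρ f) : Gr ρ (fun t => f (-t)) := by
  obtain ⟨A, hA, h⟩ := h
  refine ⟨A, hA, fun t => ?_⟩
  have := h (-t)
  rwa [neg_im, abs_neg] at this

lemma Gr.mul {ρ : ℝ} {f g : ℂ → ℂ} (hf : Gr ρ f) (hg : Gr ρ g) : Gr ρ (fun t => f t * g t) := by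
  obtain ⟨A, hA, hf⟩ := hf
  obtain ⟨B, hB, hg⟩ := hg
  refine ⟨A + B, by positivity, fun t => ?_⟩
  rw [norm_mul, add_mul, Real.exp_add]
  exact mul_le_mul (hf t) (hg t) (norm_nonneg _) (Real.exp_pos _).le

lemma Gr.sub {ρ : ℝ} {f g : ℂ → ℂ} (hρ : 0 ≤ ρ) (hf : Gr ρ f) (hg : Gr ρ g) :
    Gr ρ (fun t => f t - g t) := by
  obtain ⟨A, hA, hf⟩ := hf
  obtain ⟨B, hB, hg⟩ := hg
  refine ⟨A + B + 1, by positivity, fun t => ?_⟩
  have h1 : 1 ≤ Real.exp (ρ * |t.im|) := Real.one_le_exp (by positivity)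
  have h2 : Real.exp (A * Real.exp (ρ * |t.im|)) ≤ Real.exp ((A + B) * Real.exp (ρ * |t.im|)) :=
    Real.exp_le_exp.2 (by gcongr; linarith)
  have h3 : Real.exp (B * Real.exp (ρ * |t.im|)) ≤ Real.exp ((A + B) * Real.exp (ρ * |t.im|)) :=
    Real.exp_le_exp.2 (by gcongr; linarith)
  have h4 : (2 : ℝ) ≤ Real.exp (Real.exp (ρ * |t.im|)) := by
    have := Real.add_one_le_exp (Real.exp (ρ * |t.im|))
    linarith
  calc ‖f t - g t‖ ≤ ‖f t‖ + ‖g t‖ := norm_sub_le _ _
    _ ≤ 2 * Real.exp ((A + B) * Real.exp (ρ * |t.im|)) := by linarith [hf t, hg t]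
    _ ≤ Real.exp (Real.exp (ρ * |t.im|)) * Real.exp ((A + B) * Real.exp (ρ * |t.im|)) := by gcongr
    _ = _ := by rw [← Real.exp_add]; congr 1; ring

lemma Gr.deriv {ρ : ℝ} {f : ℂ → ℂ} (hρ : 0 ≤ ρ) (hd : Differentiable ℂ f) (hf : Gr ρ f) :
    Gr ρ (deriv f) := by
  obtain ⟨A, hA, hf⟩ := hf
  refine ⟨A * Real.exp ρ, by positivity, fun t => ?_⟩
  have h := Complex.norm_deriv_le_of_forall_mem_sphere_norm_le (c := t) (R := 1)
    (C := Real.exp (A * Real.exp ρ * Real.exp (ρ * |t.im|))) one_pos hd.diffContOnCl ?_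
  · rwa [div_one] at h
  · intro z hz
    refine (hf z).trans (Real.exp_le_exp.2 ?_)
    rw [mul_assoc, ← Real.exp_add]
    have h1 : |z.im| ≤ 1 + |t.im| := by
      rw [mem_sphere, dist_eq_norm] at hz
      have h2 : |(z - t).im| ≤ 1 := (abs_im_le_norm _).trans hz.le
      rw [sub_im] at h2
      have := abs_sub_abs_le_abs_sub z.im t.im
      linarith
    gcongr
    nlinarith

/-- bound for one function, in terms of a finite set of points -/
theorem one_fun {ρ : ℝ} (hρ : 0 ≤ ρ) {f : ℂ → ℂ} (hd : Differentiable ℂ f) (hf : Gr ρ f)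
    (hne : ∃ t, f t ≠ 0) : ∃ C : ℝ, 0 < C ∧ ∀ Y : ℝ, 0 ≤ Y → ∃ s : Multiset ℂ,
      (Multiset.card s : ℝ) ≤ C * (1 + Y) * Real.exp (ρ * Y) ∧
      ∀ x y : ℝ, x ∈ Icc 0 (2 * Real.pi) → y ∈ Icc Y (Y + 1) → (∀ β ∈ s, y ≠ β.im) →
        f (x + y * I) ≠ 0 ∧ ‖deriv f (x + y * I) / f (x + y * I)‖ ≤
          (s.map fun β => 1 / |y - β.im|).sum + C * (1 + Y) ^ 3 * Real.exp (ρ * Y) := by
  obtain ⟨A, hA, hf⟩ := hf
  obtain ⟨c, hc⟩ := hne
  have hfc : 0 < ‖f c‖ := norm_pos_iff.2 hc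
  -- constants
  set κ : ℝ := 11 + ‖c‖ with hκ
  have hκ1 : 1 ≤ κ := by rw [hκ]; linarith [norm_nonneg c]
  set Λ0 : ℝ := A * Real.exp (ρ * (κ + ‖c‖)) + |Real.log ‖f c‖| + 1 with hΛ0
  have hΛ1 : 1 ≤ Λ0 := by rw [hΛ0]; have : 0 ≤ A * Real.exp (ρ * (κ + ‖c‖)) := by positivity
                          linarith [abs_nonneg (Real.log ‖f c‖)]
  refine ⟨8 * Λ0 * κ ^ 3, by positivity, fun Y hY => ?_⟩
  set R : ℝ := Y + κ with hR
  set M : ℝ := Real.exp (A * Real.exp (ρ * (R + ‖c‖))) with hM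
  have hM1 : 1 ≤ M := Real.one_le_exp (by positivity)
  have hR11 : 11 ≤ R := by rw [hR, hκ]; linarith [norm_nonneg c]
  have hball : ∀ z ∈ closedBall c R, ‖f z‖ ≤ M := by
    intro z hz
    refine (hf z).trans (Real.exp_le_exp.2 ?_)
    rw [mem_closedBall, dist_eq_norm] at hz
    have h1 : |z.im| ≤ R + ‖c‖ := by
      calc |z.im| ≤ ‖z‖ := abs_im_le_norm z
        _ = ‖(z - c) + c‖ := by congr 1; ring
        _ ≤ ‖z - c‖ + ‖c‖ := norm_add_le _ _
        _ ≤ R + ‖c‖ := by linarith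
    gcongr
  obtain ⟨s, hcard, hs⟩ := landau2 (f := f) (c := c) (r := R - 1) (r1 := R - 2) (r2 := R - 3)
    (R := R) (M := M) (by linarith) (by linarith) (by linarith) (by linarith) (by linarith) hM1
    (hball c (mem_closedBall_self (by linarith)))
    (fun z _ => (hd.analyticAt z)) hc hball
  have hEY : 1 ≤ Real.exp (ρ * Y) := Real.one_le_exp (by positivity)
  set L : ℝ := Real.log (M / ‖f c‖) with hL
  have hL0 : 0 ≤ L := Real.log_nonneg (by
    rw [le_div_iff₀ hfc, one_mul]; exact hball c (mem_closedBall_self (by linarith)))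
  have hLle : L ≤ Λ0 * Real.exp (ρ * Y) := by
    rw [hL, Real.log_div (by positivity) hfc.ne', hM, Real.log_exp]
    have h1 : ρ * (R + ‖c‖) = ρ * (κ + ‖c‖) + ρ * Y := by rw [hR]; ring
    rw [h1, Real.exp_add, hΛ0]
    have h2 : -Real.log ‖f c‖ ≤ |Real.log ‖f c‖| := neg_le_abs _
    have h3 : |Real.log ‖f c‖| ≤ |Real.log ‖f c‖| * Real.exp (ρ * Y) :=
      le_mul_of_one_le_right (abs_nonneg _) hEY
    nlinarith
  have hlog : 1 / R ≤ Real.log (R / (R - 1)) := by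
    have h1 : 0 < R / (R - 1) := by apply div_pos <;> linarith
    have h2 := Real.one_sub_inv_le_log_of_pos h1
    rw [inv_div] at h2
    have h3 : 1 - (R - 1) / R = 1 / R := by field_simp; ring
    rwa [h3] at h2
  have hlog0 : 0 < Real.log (R / (R - 1)) := lt_of_lt_of_le (by positivity) hlog
  have hquot : L / Real.log (R / (R - 1)) ≤ L * R := by
    rw [div_le_iff₀ hlog0]
    have h1 : L * R * (1 / R) ≤ L * R * Real.log (R / (R - 1)) := by gcongr
    have h2 : L * R * (1 / R) = L := by field_simp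
    linarith
  have hquot0 : 0 ≤ L / Real.log (R / (R - 1)) := by positivity
  have hRκ : R ≤ κ * (1 + Y) := by rw [hR]; nlinarith
  refine ⟨s, ?_, ?_⟩
  · refine hcard.trans (hquot.trans ?_)
    calc L * R ≤ (Λ0 * Real.exp (ρ * Y)) * (κ * (1 + Y)) := by gcongr
      _ = 1 * (Λ0 * κ ^ 1 * (1 + Y) * Real.exp (ρ * Y)) := by ring
      _ ≤ 8 * (Λ0 * κ ^ 3 * (1 + Y) * Real.exp (ρ * Y)) := by
          have : κ ^ 1 ≤ κ ^ 3 := pow_le_pow_right₀ hκ1 (by norm_num)
          gcongr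
          norm_num
      _ = _ := by ring
  · intro x y hx hy hne
    have hz : (x + y * I : ℂ) ∈ closedBall c (R - 3) := by
      rw [mem_closedBall, dist_eq_norm]
      have hpi : Real.pi ≤ 3.15 := Real.pi_lt_d2.le
      calc ‖(x + y * I : ℂ) - c‖ ≤ ‖(x + y * I : ℂ)‖ + ‖c‖ := norm_sub_le _ _
        _ ≤ ‖(x : ℂ)‖ + ‖(y * I : ℂ)‖ + ‖c‖ := by linarith [norm_add_le (x : ℂ) (y * I)]
        _ = |x| + |y| + ‖c‖ := by simp
        _ ≤ 2 * Real.pi + (Y + 1) + ‖c‖ := by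
            rw [abs_of_nonneg hx.1, abs_of_nonneg (hY.trans hy.1)]
            linarith [hx.2, hy.2]
        _ ≤ R - 3 := by rw [hR, hκ]; linarith
    have hne' : ∀ β ∈ s, (x + y * I : ℂ) ≠ β := by
      intro β hβ he
      apply hne β hβ
      rw [← he]
      simp
    obtain ⟨h1, h2⟩ := hs _ hz hne'
    refine ⟨h1, h2.trans ?_⟩
    apply add_le_add
    · apply Multiset.sum_map_le_sum_map
      intro β hβ
      have h3 : |y - β.im| ≤ ‖(x + y * I : ℂ) - β‖ := by
        have := abs_im_le_norm ((x + y * I : ℂ) - β)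
        simpa using this
      have h4 : 0 < |y - β.im| := abs_pos.2 (sub_ne_zero.2 (hne β hβ))
      exact one_div_le_one_div_of_le h4 h3
    · have e1 : R - 1 - (R - 2) = 1 := by ring
      have e2 : R - 2 - (R - 3) = 1 := by ring
      have e3 : R - (R - 1) = 1 := by ring
      rw [e1, e2, e3, div_one, div_one, div_one]
      have h5 : Real.log (R - 1) ≤ R := by
        have := Real.log_le_sub_one_of_pos (show 0 < R - 1 by linarith)
        linarith
      have h50 : 0 ≤ Real.log (R - 1) := Real.log_nonneg (by linarith)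
      have h6 : L + L / Real.log (R / (R - 1)) * Real.log (R - 1) + 1 ≤
          3 * (Λ0 * Real.exp (ρ * Y) * R ^ 2) := by
        have h7 : L / Real.log (R / (R - 1)) * Real.log (R - 1) ≤ L * R * R := by gcongr
        have h8 : 1 ≤ R ^ 2 := one_le_pow₀ (by linarith)
        have h9 : L * R * R ≤ Λ0 * Real.exp (ρ * Y) * R ^ 2 := by
          calc L * R * R = L * R ^ 2 := by ring
            _ ≤ _ := by gcongr
        have h10 : L ≤ Λ0 * Real.exp (ρ * Y) * R ^ 2 :=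
          hLle.trans (le_mul_of_one_le_right (by positivity) h8)
        have h11 : 1 ≤ Λ0 * Real.exp (ρ * Y) * R ^ 2 := by
          have := mul_le_mul (mul_le_mul hΛ1 hEY zero_le_one (by positivity)) h8 zero_le_one
            (by positivity)
          linarith
        linarith
      calc 2 * (L + L / Real.log (R / (R - 1)) * Real.log (R - 1) + 1) * (R - 2)
          ≤ 2 * (3 * (Λ0 * Real.exp (ρ * Y) * R ^ 2)) * R := by
            have : R - 2 ≤ R := by linarith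
            have h12 : 0 ≤ R - 2 := by linarith
            gcongr
        _ = 6 * (Λ0 * Real.exp (ρ * Y) * R ^ 3) := by ring
        _ ≤ 8 * (Λ0 * Real.exp (ρ * Y) * (κ * (1 + Y)) ^ 3) := by
            gcongr
            norm_num
        _ = _ := by ring

/-- **good lines** for two functions -/
theorem good_lines {ρ : ℝ} (hρ : 0 ≤ ρ) {f g : ℂ → ℂ} (hdf : Differentiable ℂ f)
    (hdg : Differentiable ℂ g) (hf : Gr ρ f) (hg : Gr ρ g) (hnf : ∃ t, f t ≠ 0)
    (hng : ∃ t, g t ≠ 0) : ∃ C : ℝ, 0 < C ∧ ∀ Y : ℝ, 0 ≤ Y → ∃ y ∈ Icc Y (Y + 1),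
      ∀ x ∈ Icc (0 : ℝ) (2 * Real.pi),
        f (x + y * I) ≠ 0 ∧ g (x + y * I) ≠ 0 ∧
        ‖deriv f (x + y * I) / f (x + y * I)‖ ≤ C * (1 + Y) ^ 3 * Real.exp (ρ * Y) ∧
        ‖deriv g (x + y * I) / g (x + y * I)‖ ≤ C * (1 + Y) ^ 3 * Real.exp (ρ * Y) := by
  obtain ⟨C1, hC1, h1⟩ := one_fun hρ hdf hf hnf
  obtain ⟨C2, hC2, h2⟩ := one_fun hρ hdg hg hng
  set D : ℝ := C1 + C2 + 1 with hD
  have hD1 : 1 ≤ D := by linarith
  refine ⟨16 * D * (Real.log (17 * D) + ρ + 1) + D, ?_, fun Y hY => ?_⟩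
  · have : 0 ≤ Real.log (17 * D) := Real.log_nonneg (by linarith)
    positivity
  obtain ⟨s1, hs1, k1⟩ := h1 Y hY
  obtain ⟨s2, hs2, k2⟩ := h2 Y hY
  have hE : 1 ≤ Real.exp (ρ * Y) := Real.one_le_exp (by positivity)
  set b : Multiset ℝ := (s1 + s2).map fun β => β.im with hb
  obtain ⟨y, hy, hne, hsum⟩ := select b Y
  have hcard : ((Multiset.card b : ℕ) : ℝ) + 1 ≤ D * (1 + Y) * Real.exp (ρ * Y) := by
    rw [hb, Multiset.card_map, Multiset.card_add]
    push_cast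
    have h3 : 1 ≤ (1 + Y) * Real.exp (ρ * Y) := by
      have := mul_le_mul (show (1 : ℝ) ≤ 1 + Y by linarith) hE zero_le_one (by linarith)
      linarith
    rw [hD]
    linarith
  have hT : 16 * (((Multiset.card b : ℕ) : ℝ) + 1) *
      Real.log (1 + 16 * (((Multiset.card b : ℕ) : ℝ) + 1)) ≤
      16 * D * (Real.log (17 * D) + ρ + 1) * (1 + Y) ^ 3 * Real.exp (ρ * Y) := by
    set N : ℝ := ((Multiset.card b : ℕ) : ℝ) + 1 with hN
    have hN1 : 1 ≤ N := by rw [hN]; linarith [Nat.cast_nonneg (α := ℝ) (Multiset.card b)]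
    have h4 : Real.log (1 + 16 * N) ≤ (Real.log (17 * D) + ρ + 1) * (1 + Y) := by
      have h5 : 1 + 16 * N ≤ 17 * D * (Real.exp Y * Real.exp (ρ * Y)) := by
        have h6 : 1 + Y ≤ Real.exp Y := by linarith [Real.add_one_le_exp Y]
        calc 1 + 16 * N ≤ 17 * N := by linarith
          _ ≤ 17 * (D * (1 + Y) * Real.exp (ρ * Y)) := by gcongr
          _ ≤ 17 * (D * Real.exp Y * Real.exp (ρ * Y)) := by gcongr
          _ = _ := by ring
      have h7 := Real.log_le_log (by positivity) h5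
      rw [Real.log_mul (by positivity) (by positivity), ← Real.exp_add, Real.log_exp] at h7
      have h8 : 0 ≤ Real.log (17 * D) := Real.log_nonneg (by linarith)
      nlinarith
    have h40 : 0 ≤ Real.log (1 + 16 * N) := Real.log_nonneg (by linarith)
    calc 16 * N * Real.log (1 + 16 * N) ≤ 16 * (D * (1 + Y) * Real.exp (ρ * Y)) *
          ((Real.log (17 * D) + ρ + 1) * (1 + Y)) := by gcongr
      _ = 16 * D * (Real.log (17 * D) + ρ + 1) * (1 + Y) ^ 2 * Real.exp (ρ * Y) := by ring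
      _ ≤ _ := by
          have h9 : (1 + Y) ^ 2 ≤ (1 + Y) ^ 3 := pow_le_pow_right₀ (by linarith) (by norm_num)
          have h8 : 0 ≤ Real.log (17 * D) := Real.log_nonneg (by linarith)
          gcongr
  have hsplit : (s1.map fun β => 1 / |y - β.im|).sum + (s2.map fun β => 1 / |y - β.im|).sum =
      (b.map fun β => 1 / |y - β|).sum := by
    rw [hb, Multiset.map_map, Multiset.map_add, Multiset.sum_add]
    rfl
  have hnn : ∀ s : Multiset ℂ, 0 ≤ (s.map fun β => 1 / |y - β.im|).sum := by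
    intro s
    apply Multiset.sum_nonneg
    intro x hx
    rw [Multiset.mem_map] at hx
    obtain ⟨β, -, rfl⟩ := hx
    positivity
  have hP : 0 < (1 + Y) ^ 3 * Real.exp (ρ * Y) := by positivity
  refine ⟨y, hy, fun x hx => ?_⟩
  obtain ⟨a1, a2⟩ := k1 x y hx hy fun β hβ => hne β.im (by
    rw [hb, Multiset.mem_map]; exact ⟨β, Multiset.mem_add.2 (Or.inl hβ), rfl⟩)
  obtain ⟨b1, b2⟩ := k2 x y hx hy fun β hβ => hne β.im (by
    rw [hb, Multiset.mem_map]; exact ⟨β, Multiset.mem_add.2 (Or.inr hβ), rfl⟩)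
  refine ⟨a1, b1, a2.trans ?_, b2.trans ?_⟩
  · have := hnn s2
    have h10 : C1 * (1 + Y) ^ 3 * Real.exp (ρ * Y) ≤ D * (1 + Y) ^ 3 * Real.exp (ρ * Y) := by
      gcongr
      linarith
    calc _ ≤ 16 * D * (Real.log (17 * D) + ρ + 1) * (1 + Y) ^ 3 * Real.exp (ρ * Y) +
        D * (1 + Y) ^ 3 * Real.exp (ρ * Y) := by linarith
      _ = _ := by ring
  · have := hnn s1
    have h10 : C2 * (1 + Y) ^ 3 * Real.exp (ρ * Y) ≤ D * (1 + Y) ^ 3 * Real.exp (ρ * Y) := by
      gcongr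
      linarith
    calc _ ≤ 16 * D * (Real.log (17 * D) + ρ + 1) * (1 + Y) ^ 3 * Real.exp (ρ * Y) +
        D * (1 + Y) ^ 3 * Real.exp (ρ * Y) := by linarith
      _ = _ := by ring

end Pool.Agent.W743.BE
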